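import Mathlib
import Pool.Agent.Lib.MP_d56194_co.I.I4

set_option autoImplicit false

namespace Pool.MP_d56194_co

open Finset

section

variable {V R : Type} [Fintype V] [Fintype R] [DecidableEq V] [DecidableEq R]

/-- Solutions with an independent support have bounded denominators. -/
theorem indep_den (a : R → V → ℕ) (S : Finset V)
    (hind : ∀ y : V → ℝ, (∀ v, v ∉ S → y v = 0) → (∀ r, ∑ v, (a r v : ℝ) * y v = 0) →
      ∀ v, y v = 0) :
    ∃ d : ℕ, 0 < d ∧ ∀ y : V → ℝ, (∀ v, v ∉ S → y v = 0) →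
      (∀ r, ∑ v, (a r v : ℝ) * y v ∈ ZG) → ∀ v, (d : ℝ) * y v ∈ ZG := by
  classical
  set f : (S → ℚ) →ₗ[ℚ] (R → ℚ) :=
    { toFun := fun z r => ∑ v : S, (a r v : ℚ) * z v
      map_add' := by
        intro z z'
        funext r
        simp only [Pi.add_apply, mul_add, Finset.sum_add_distrib]
      map_smul' := by
        intro c z
        funext r
        simp only [Pi.smul_apply, smul_eq_mul, RingHom.id_apply, Finset.mul_sum]
        apply Finset.sum_congr rfl
        intro v _
        ring } with hf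
  have hfz : ∀ z r, f z r = ∑ v : S, (a r v : ℚ) * z v := fun z r => rfl
  have hext : ∀ (z : S → ℝ) (r : R), ∑ v, (a r v : ℝ) * (if h : v ∈ S then z ⟨v, h⟩ else 0) =
      ∑ v : S, (a r v : ℝ) * z v := by
    intro z r
    have h1 : ∑ v, (a r v : ℝ) * (if h : v ∈ S then z ⟨v, h⟩ else 0) =
        ∑ v ∈ S, (a r v : ℝ) * (if h : v ∈ S then z ⟨v, h⟩ else 0) := by
      symm
      apply Finset.sum_subset (Finset.subset_univ S)
      intro v _ hv
      rw [dif_neg hv, mul_zero]
    rw [h1, ← Finset.sum_coe_sort S]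
    apply Finset.sum_congr rfl
    intro v _
    rw [dif_pos v.2]
  have hker : LinearMap.ker f = ⊥ := by
    rw [LinearMap.ker_eq_bot']
    intro z hz
    funext v
    have h1 := hind (fun v => if h : v ∈ S then ((z ⟨v, h⟩ : ℚ) : ℝ) else 0)
      (fun v hv => dif_neg hv) (by
        intro r
        rw [hext (fun v => ((z v : ℚ) : ℝ)) r]
        have h2 : f z r = 0 := by rw [hz]; rfl
        rw [hfz] at h2
        have h3 : ((∑ v : S, (a r v : ℚ) * z v : ℚ) : ℝ) = 0 := by rw [h2]; simp
        rw [← h3]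
        push_cast
        rfl) v.1
    rw [dif_pos v.2] at h1
    simp only [Pi.zero_apply]
    exact_mod_cast h1
  obtain ⟨g, hg⟩ := f.exists_leftInverse_of_injective hker
  set h : S → R → ℚ := fun u r => g (Pi.single r 1) u with hh
  have hident : ∀ u w : S, ∑ r, h u r * (a r w : ℚ) = if u = w then 1 else 0 := by
    intro u w
    have h1 : g (f (Pi.single w 1)) = Pi.single w 1 := by
      have := congrArg (fun l => l (Pi.single w 1)) hg
      simpa using this
    have h2 : f (Pi.single w 1) = ∑ r, (a r w : ℚ) • (Pi.single r (1 : ℚ) : R → ℚ) := by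
      funext r
      rw [hfz, Finset.sum_apply]
      simp only [Pi.smul_apply, smul_eq_mul, Pi.single_apply, mul_ite, mul_one, mul_zero]
      rw [Finset.sum_ite_eq' Finset.univ w, if_pos (Finset.mem_univ _),
        Finset.sum_ite_eq Finset.univ r, if_pos (Finset.mem_univ _)]
    rw [h2, map_sum] at h1
    have h3 := congrFun h1 u
    rw [Finset.sum_apply] at h3
    simp only [map_smul, Pi.smul_apply, smul_eq_mul, Pi.single_apply] at h3
    rw [← h3]
    apply Finset.sum_congr rfl
    intro r _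
    simp only [hh]
    rw [mul_comm]
  have hreal : ∀ (y : V → ℝ), (∀ v, v ∉ S → y v = 0) → ∀ u : S,
      y u = ∑ r, ((h u r : ℚ) : ℝ) * ∑ v, (a r v : ℝ) * y v := by
    intro y hy u
    have h1 : ∀ r, ((h u r : ℚ) : ℝ) * ∑ v, (a r v : ℝ) * y v =
        ∑ v : S, ((h u r : ℚ) : ℝ) * (a r v : ℝ) * y v := by
      intro r
      have h2 : ∑ v, (a r v : ℝ) * y v = ∑ v : S, (a r v : ℝ) * y v := by
        rw [← hext (fun v => y v) r]
        apply Finset.sum_congr rfl
        intro v _
        by_cases hv : v ∈ S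
        · rw [dif_pos hv]
        · rw [dif_neg hv, hy v hv]
      rw [h2, Finset.mul_sum]
      apply Finset.sum_congr rfl
      intro v _
      ring
    rw [Finset.sum_congr rfl (fun r _ => h1 r), Finset.sum_comm]
    have h3 : ∀ v : S, ∑ r, ((h u r : ℚ) : ℝ) * (a r v : ℝ) * y v =
        if u = v then y v else 0 := by
      intro v
      rw [← Finset.sum_mul]
      have h4 : (∑ r, ((h u r : ℚ) : ℝ) * (a r v : ℝ)) = (((if u = v then 1 else 0 : ℚ)) : ℝ) := by
        rw [← hident u v]
        push_cast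
        rfl
      rw [h4]
      split_ifs <;> simp
    rw [Finset.sum_congr rfl (fun v _ => h3 v), Finset.sum_ite_eq, if_pos (Finset.mem_univ _)]
  set d : ℕ := ∏ p : S × R, (h p.1 p.2).den with hd
  refine ⟨d, Finset.prod_pos (fun p _ => (h p.1 p.2).den_pos), ?_⟩
  intro y hy hb v
  by_cases hv : v ∈ S
  · have h1 := hreal y hy ⟨v, hv⟩
    simp only at h1
    rw [h1, Finset.mul_sum]
    apply sum_mem
    intro r _
    have h2 : (h ⟨v, hv⟩ r).den ∣ d := Finset.dvd_prod_of_mem
      (fun p : S × R => (h p.1 p.2).den) (Finset.mem_univ (⟨v, hv⟩, r))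
    obtain ⟨e, he⟩ := h2
    obtain ⟨k, hk⟩ := (mem_ZG _).mp (hb r)
    rw [← hk, mem_ZG]
    refine ⟨e * (h ⟨v, hv⟩ r).num * k, ?_⟩
    have h3 : ((d : ℝ)) * ((h ⟨v, hv⟩ r : ℚ) : ℝ) = (e : ℝ) * ((h ⟨v, hv⟩ r).num : ℝ) := by
      have h4 : (d : ℚ) * (h ⟨v, hv⟩ r) = (e : ℚ) * ((h ⟨v, hv⟩ r).num : ℚ) := by
        have h5 := Rat.mul_den_eq_num (h ⟨v, hv⟩ r)
        rw [he]
        push_cast
        rw [← h5]
        ring
      exact_mod_cast h4
    push_cast
    rw [← h3]
    ring
  · rw [hy v hv, mul_zero]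
    exact zero_mem _

/-- A solution with an independent support which is positive at a given place. -/
theorem exists_basic (a : R → V → ℕ) (hcov : ∀ v, ∃ r, 0 < a r v) (v0 : V) (n : ℕ) :
    ∀ y : V → ℝ, (univ.filter (fun v => y v ≠ 0)).card ≤ n → (∀ v, 0 ≤ y v) → 0 < y v0 →
      ∃ (S : Finset V) (x : V → ℝ), (∀ v ∈ S, y v ≠ 0) ∧ (∀ v, 0 ≤ x v) ∧
        (∀ v, v ∉ S → x v = 0) ∧ 0 < x v0 ∧
        (∀ r, ∑ v, (a r v : ℝ) * x v = ∑ v, (a r v : ℝ) * y v) ∧
        (∀ z : V → ℝ, (∀ v, v ∉ S → z v = 0) → (∀ r, ∑ v, (a r v : ℝ) * z v = 0) →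
          ∀ v, z v = 0) := by
  classical
  induction n with
  | zero =>
    intro y hn _ hv0
    exfalso
    have h1 : (univ.filter (fun v => y v ≠ 0)) = ∅ := Finset.card_eq_zero.mp (Nat.le_zero.mp hn)
    rw [Finset.filter_eq_empty_iff] at h1
    exact h1 (Finset.mem_univ v0) hv0.ne'
  | succ n ih =>
    intro y hn hy hv0
    by_cases hind : ∀ z : V → ℝ, (∀ v, v ∉ univ.filter (fun v => y v ≠ 0) → z v = 0) →
        (∀ r, ∑ v, (a r v : ℝ) * z v = 0) → ∀ v, z v = 0
    · refine ⟨univ.filter (fun v => y v ≠ 0), y, ?_, hy, ?_, hv0, fun _ => rfl, hind⟩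
      · intro v hv
        exact (Finset.mem_filter.mp hv).2
      · intro v hv
        by_contra hcon
        exact hv (Finset.mem_filter.mpr ⟨Finset.mem_univ v, hcon⟩)
    · push Not at hind
      obtain ⟨z0, hz1, hz2, v1, hv1⟩ := hind
      -- sign
      obtain ⟨z, g1, g2, g3, g4⟩ : ∃ z : V → ℝ, (∀ v, y v = 0 → z v = 0) ∧
          (∀ r, ∑ v, (a r v : ℝ) * z v = 0) ∧ z v1 ≠ 0 ∧ z v0 ≤ 0 := by
        have hz1' : ∀ v, y v = 0 → z0 v = 0 := by
          intro v hv
          apply hz1
          rw [Finset.mem_filter]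
          exact fun h => h.2 hv
        rcases le_total (z0 v0) 0 with h | h
        · exact ⟨z0, hz1', hz2, hv1, h⟩
        · refine ⟨fun v => - z0 v, ?_, ?_, ?_, ?_⟩
          · intro v hv
            simp only
            rw [hz1' v hv, neg_zero]
          · intro r
            simp only [mul_neg, Finset.sum_neg_distrib]
            rw [hz2 r, neg_zero]
          · simp only [ne_eq, neg_eq_zero]
            exact hv1
          · simp only
            linarith
      have hpos : ∃ w, 0 < z w := by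
        by_contra hcon
        push Not at hcon
        apply g3
        obtain ⟨r, hr⟩ := hcov v1
        have h1 := g2 r
        have h2 : ∀ v ∈ univ, (a r v : ℝ) * z v ≤ 0 := fun v _ =>
          mul_nonpos_of_nonneg_of_nonpos (Nat.cast_nonneg _) (hcon v)
        have h3 := (Finset.sum_eq_zero_iff_of_nonpos h2).mp h1 v1 (Finset.mem_univ _)
        rcases mul_eq_zero.mp h3 with h4 | h4
        · exfalso
          have h5 : (a r v1 : ℝ) ≠ 0 := by
            exact_mod_cast hr.ne'
          exact h5 h4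
        · exact h4
      obtain ⟨w0, hw0⟩ := hpos
      obtain ⟨w, hw, hwmin⟩ := Finset.exists_min_image (univ.filter (fun v => 0 < z v))
        (fun v => y v / z v) ⟨w0, Finset.mem_filter.mpr ⟨Finset.mem_univ _, hw0⟩⟩
      have hzw := (Finset.mem_filter.mp hw).2
      set t : ℝ := y w / z w with ht
      have ht0 : 0 ≤ t := div_nonneg (hy w) hzw.le
      set y' : V → ℝ := fun v => y v - t * z v with hy'
      have hy'0 : ∀ v, 0 ≤ y' v := by
        intro v
        simp only [hy']
        rcases lt_or_ge 0 (z v) with h | h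
        · have h1 := hwmin v (Finset.mem_filter.mpr ⟨Finset.mem_univ _, h⟩)
          rw [le_div_iff₀ h] at h1
          linarith
        · have h1 : t * z v ≤ 0 := mul_nonpos_of_nonneg_of_nonpos ht0 h
          have := hy v
          linarith
      have hy'w : y' w = 0 := by
        simp only [hy', ht]
        field_simp
        ring
      have hyw : y w ≠ 0 := by
        intro h
        rw [g1 w h] at hzw
        exact lt_irrefl _ hzw
      have hsub : ∀ v, y' v ≠ 0 → y v ≠ 0 := by
        intro v hv h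
        apply hv
        simp only [hy']
        rw [h, g1 v h]
        ring
      have hcard : (univ.filter (fun v => y' v ≠ 0)).card ≤ n := by
        have h1 : (univ.filter (fun v => y' v ≠ 0)).card <
            (univ.filter (fun v => y v ≠ 0)).card := by
          apply Finset.card_lt_card
          rw [Finset.ssubset_iff_of_subset]
          · refine ⟨w, Finset.mem_filter.mpr ⟨Finset.mem_univ _, hyw⟩, ?_⟩
            intro h
            exact (Finset.mem_filter.mp h).2 hy'w
          · intro v hv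
            rw [Finset.mem_filter] at hv ⊢
            exact ⟨hv.1, hsub v hv.2⟩
        omega
      have hy'v0 : 0 < y' v0 := by
        simp only [hy']
        have h1 : t * z v0 ≤ 0 := mul_nonpos_of_nonneg_of_nonpos ht0 g4
        linarith
      obtain ⟨S, x, k1, k2, k3, k4, k5, k6⟩ := ih y' hcard hy'0 hy'v0
      refine ⟨S, x, fun v hv => hsub v (k1 v hv), k2, k3, k4, ?_, k6⟩
      intro r
      rw [k5 r]
      simp only [hy', mul_sub, Finset.sum_sub_distrib]
      have h1 : ∑ v, (a r v : ℝ) * (t * z v) = t * ∑ v, (a r v : ℝ) * z v := by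
        rw [Finset.mul_sum]
        apply Finset.sum_congr rfl
        intro v _
        ring
      rw [h1, g2 r, mul_zero, sub_zero]

/-- Real solutions can be replaced by solutions with the same support and a lower bound for
the positive entries which depends only on the system. -/
theorem eps_general (a : R → V → ℕ) (hcov : ∀ v, ∃ r, 0 < a r v) :
    ∃ ε : ℝ, 0 < ε ∧ ∀ (C : Finset V) (x : V → ℝ), (∀ v ∈ C, 0 < x v) →
      (∀ v, v ∉ C → x v = 0) → (∀ r, ∑ v, (a r v : ℝ) * x v ∈ ZG) →
      ∃ x' : V → ℝ, (∀ v, v ∉ C → x' v = 0) ∧ (∀ v ∈ C, ε ≤ x' v) ∧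
        ∀ r, ∑ v, (a r v : ℝ) * x' v = ∑ v, (a r v : ℝ) * x v := by
  classical
  have hd : ∀ S : Finset V, ∃ d : ℕ, 0 < d ∧
      ((∀ y : V → ℝ, (∀ v, v ∉ S → y v = 0) → (∀ r, ∑ v, (a r v : ℝ) * y v = 0) →
        ∀ v, y v = 0) → ∀ y : V → ℝ, (∀ v, v ∉ S → y v = 0) →
        (∀ r, ∑ v, (a r v : ℝ) * y v ∈ ZG) → ∀ v, (d : ℝ) * y v ∈ ZG) := by
    intro S
    by_cases h : ∀ y : V → ℝ, (∀ v, v ∉ S → y v = 0) →
        (∀ r, ∑ v, (a r v : ℝ) * y v = 0) → ∀ v, y v = 0
    · obtain ⟨d, h1, h2⟩ := indep_den a S h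
      exact ⟨d, h1, fun _ => h2⟩
    · exact ⟨1, one_pos, fun h' => absurd h' h⟩
  choose d hd1 hd2 using hd
  set Dm : ℕ := ∑ S : Finset V, d S with hDm
  have hdD : ∀ S, d S ≤ Dm := fun S =>
    Finset.single_le_sum (f := fun S => d S) (fun _ _ => Nat.zero_le _) (Finset.mem_univ S)
  have hDm0 : 0 < Dm := lt_of_lt_of_le (hd1 ∅) (hdD ∅)
  have hDmR : (0 : ℝ) < Dm := by exact_mod_cast hDm0
  set K : ℝ := (Fintype.card V : ℝ) + 1 with hK
  have hK0 : 0 < K := by positivity
  refine ⟨1 / (K * Dm), by positivity, ?_⟩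
  intro C x hxC hx0 hxZ
  by_cases hCe : C = ∅
  · refine ⟨x, hx0, ?_, fun _ => rfl⟩
    intro v hv
    rw [hCe] at hv
    exact absurd hv (Finset.notMem_empty v)
  · have hxnn : ∀ v, 0 ≤ x v := by
      intro v
      by_cases hv : v ∈ C
      · exact (hxC v hv).le
      · rw [hx0 v hv]
    have hb : ∀ v0 : V, ∃ y : V → ℝ, v0 ∈ C → (∀ v, 0 ≤ y v) ∧ (∀ v, v ∉ C → y v = 0) ∧
        1 / (Dm : ℝ) ≤ y v0 ∧ ∀ r, ∑ v, (a r v : ℝ) * y v = ∑ v, (a r v : ℝ) * x v := by
      intro v0
      by_cases hv0 : v0 ∈ C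
      · obtain ⟨S, y, k1, k2, k3, k4, k5, k6⟩ := exists_basic a hcov v0 _ x le_rfl hxnn
          (hxC v0 hv0)
        refine ⟨y, fun _ => ⟨k2, ?_, ?_, k5⟩⟩
        · intro v hv
          apply k3
          intro hvS
          exact k1 v hvS (hx0 v hv)
        · have h1 := hd2 S k6 y k3 (by intro r; rw [k5 r]; exact hxZ r) v0
          obtain ⟨k, hk⟩ := (mem_ZG _).mp h1
          have h2 : (0 : ℝ) < d S := by exact_mod_cast hd1 S
          have h3 : (0 : ℝ) < (k : ℝ) := by rw [hk]; exact mul_pos h2 k4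
          have h4 : (1 : ℤ) ≤ k := by
            have : (0 : ℤ) < k := by exact_mod_cast h3
            omega
          have h5 : (1 : ℝ) ≤ (k : ℝ) := by exact_mod_cast h4
          rw [hk] at h5
          have h6 : (d S : ℝ) ≤ Dm := by exact_mod_cast hdD S
          rw [div_le_iff₀ hDmR]
          have h7 : (d S : ℝ) * y v0 ≤ y v0 * Dm := by
            rw [mul_comm]
            exact mul_le_mul_of_nonneg_left h6 k4.le
          linarith
      · exact ⟨x, fun h => absurd h hv0⟩
    choose y hy using hb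
    have hCc : (0 : ℝ) < C.card := by
      have := Finset.card_pos.mpr (Finset.nonempty_iff_ne_empty.mpr hCe)
      exact_mod_cast this
    refine ⟨fun v => (1 / (C.card : ℝ)) * ∑ v0 ∈ C, y v0 v, ?_, ?_, ?_⟩
    · intro v hv
      simp only
      rw [Finset.sum_eq_zero (fun v0 hv0 => (hy v0 hv0).2.1 v hv), mul_zero]
    · intro v hv
      simp only
      have h1 : y v v ≤ ∑ v0 ∈ C, y v0 v :=
        Finset.single_le_sum (f := fun v0 => y v0 v) (fun v0 hv0 => (hy v0 hv0).1 v) hv
      have h2 := (hy v hv).2.2.1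
      have h3 : 1 / K ≤ 1 / (C.card : ℝ) := by
        apply one_div_le_one_div_of_le hCc
        have h4 : C.card ≤ Fintype.card V := Finset.card_le_univ C
        have h5 : (C.card : ℝ) ≤ Fintype.card V := by exact_mod_cast h4
        rw [hK]
        linarith
      have h6 : 1 / (K * Dm) = 1 / K * (1 / (Dm : ℝ)) := by
        rw [one_div_mul_one_div]
      rw [h6]
      apply mul_le_mul h3 (h2.trans h1) (by positivity) (by positivity)
    · intro r
      simp only
      have h1 : ∀ v, (a r v : ℝ) * (1 / (C.card : ℝ) * ∑ v0 ∈ C, y v0 v) =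
          (1 / (C.card : ℝ)) * ∑ v0 ∈ C, (a r v : ℝ) * y v0 v := by
        intro v
        rw [← Finset.mul_sum]
        ring
      rw [Finset.sum_congr rfl (fun v _ => h1 v), ← Finset.mul_sum, Finset.sum_comm,
        Finset.sum_congr rfl (fun v0 hv0 => (hy v0 hv0).2.2.2 r), Finset.sum_const,
        nsmul_eq_mul]
      field_simp

end

end Pool.MP_d56194_co
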