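import Mathlib
import Pool.Agent.Lib.MP_d56194_co.J.J1

set_option autoImplicit false

namespace Pool.MP_d56194_co

open Finset

/-- the coefficients of the line sums of a three dimensional table -/
def lineA (I J T : ℕ) : (Fin I × Fin J) ⊕ ((Fin I × Fin T) ⊕ (Fin J × Fin T)) →
    Fin I × Fin J × Fin T → ℕ
  | Sum.inl p, v => if v.1 = p.1 ∧ v.2.1 = p.2 then 1 else 0
  | Sum.inr (Sum.inl p), v => if v.1 = p.1 ∧ v.2.2 = p.2 then 1 else 0
  | Sum.inr (Sum.inr p), v => if v.2.1 = p.1 ∧ v.2.2 = p.2 then 1 else 0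

theorem line1 (I J T : ℕ) (x : ℕ × ℕ × ℕ → ℝ) (i : Fin I) (j : Fin J) :
    ∑ v : Fin I × Fin J × Fin T, ((lineA I J T (Sum.inl (i, j)) v : ℕ) : ℝ) *
      x (v.1.1, v.2.1.1, v.2.2.1) = ∑ c ∈ range T, x (i.1, j.1, c) := by
  rw [Fintype.sum_prod_type, Finset.sum_eq_single i]
  · rw [Fintype.sum_prod_type, Finset.sum_eq_single j]
    · rw [Finset.sum_range]
      apply Finset.sum_congr rfl
      intro t _
      simp [lineA]
    · intro b _ hb
      apply Finset.sum_eq_zero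
      intro t _
      simp [lineA, hb]
    · intro h
      exact absurd (Finset.mem_univ j) h
  · intro b _ hb
    apply Finset.sum_eq_zero
    intro t _
    simp [lineA, hb]
  · intro h
    exact absurd (Finset.mem_univ i) h

theorem line2 (I J T : ℕ) (x : ℕ × ℕ × ℕ → ℝ) (i : Fin I) (t : Fin T) :
    ∑ v : Fin I × Fin J × Fin T, ((lineA I J T (Sum.inr (Sum.inl (i, t))) v : ℕ) : ℝ) *
      x (v.1.1, v.2.1.1, v.2.2.1) = ∑ b ∈ range J, x (i.1, b, t.1) := by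
  rw [Fintype.sum_prod_type, Finset.sum_eq_single i]
  · rw [Fintype.sum_prod_type, Finset.sum_range]
    apply Finset.sum_congr rfl
    intro b _
    rw [Finset.sum_eq_single t]
    · simp [lineA]
    · intro c _ hc
      simp [lineA, hc]
    · intro h
      exact absurd (Finset.mem_univ t) h
  · intro b _ hb
    apply Finset.sum_eq_zero
    intro t _
    simp [lineA, hb]
  · intro h
    exact absurd (Finset.mem_univ i) h

theorem line3 (I J T : ℕ) (x : ℕ × ℕ × ℕ → ℝ) (j : Fin J) (t : Fin T) :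
    ∑ v : Fin I × Fin J × Fin T, ((lineA I J T (Sum.inr (Sum.inr (j, t))) v : ℕ) : ℝ) *
      x (v.1.1, v.2.1.1, v.2.2.1) = ∑ a ∈ range I, x (a, j.1, t.1) := by
  rw [Fintype.sum_prod_type, Finset.sum_range]
  apply Finset.sum_congr rfl
  intro a _
  rw [Fintype.sum_prod_type, Finset.sum_eq_single j]
  · rw [Finset.sum_eq_single t]
    · simp [lineA]
    · intro c _ hc
      simp [lineA, hc]
    · intro h
      exact absurd (Finset.mem_univ t) h
  · intro b _ hb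
    apply Finset.sum_eq_zero
    intro t _
    simp [lineA, hb]
  · intro h
    exact absurd (Finset.mem_univ j) h

/-- Real tables with integral line sums have, after multiplication with a large number, an
integral companion with the same line sums. -/
theorem table_scale (I J T : ℕ) : ∃ n₀ : ℕ, ∀ n, n₀ ≤ n → ∀ (C : Finset (ℕ × ℕ × ℕ)),
    (∀ v ∈ C, v.1 < I ∧ v.2.1 < J ∧ v.2.2 < T) →
    (∀ a a' b b' c c' : ℕ, a < a' → b < b' → c < c' → (a, b, c) ∈ C → (a', b', c') ∈ C →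
      (a', b, c) ∈ C ∧ (a, b', c) ∈ C ∧ (a, b, c') ∈ C ∧ (a', b', c) ∈ C ∧
        (a', b, c') ∈ C ∧ (a, b', c') ∈ C) →
    ∀ X : ℕ × ℕ × ℕ → ℝ, (∀ v ∈ C, 0 < X v) → (∀ v, v ∉ C → X v = 0) →
      (∀ a b, ∑ c ∈ range T, X (a, b, c) ∈ ZG) → (∀ a c, ∑ b ∈ range J, X (a, b, c) ∈ ZG) →
      (∀ b c, ∑ a ∈ range I, X (a, b, c) ∈ ZG) →
      ∃ Z : ℕ × ℕ × ℕ → ℕ, (∀ v, v ∉ C → Z v = 0) ∧
        (∀ a b, ∑ c ∈ range T, (Z (a, b, c) : ℝ) = n * ∑ c ∈ range T, X (a, b, c)) ∧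
        (∀ a c, ∑ b ∈ range J, (Z (a, b, c) : ℝ) = n * ∑ b ∈ range J, X (a, b, c)) ∧
        (∀ b c, ∑ a ∈ range I, (Z (a, b, c) : ℝ) = n * ∑ a ∈ range I, X (a, b, c)) := by
  classical
  have hcov : ∀ v : Fin I × Fin J × Fin T, ∃ r, 0 < lineA I J T r v := by
    intro v
    refine ⟨Sum.inl (v.1, v.2.1), ?_⟩
    simp [lineA]
  obtain ⟨ε, hε, heps⟩ := eps_general (lineA I J T) hcov
  obtain ⟨n₀, hn₀⟩ := exists_nat_ge (((I * (J * T) : ℕ) : ℝ) / ε)
  refine ⟨n₀, ?_⟩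
  intro n hn C hCb hCc X hXC hX0 m1 m2 m3
  set C' : Finset (Fin I × Fin J × Fin T) := univ.filter (fun v => (v.1.1, v.2.1.1, v.2.2.1) ∈ C)
    with hC'
  have hmC' : ∀ v : Fin I × Fin J × Fin T, v ∈ C' ↔ (v.1.1, v.2.1.1, v.2.2.1) ∈ C := by
    intro v
    rw [hC', Finset.mem_filter]
    simp
  obtain ⟨x', k1, k2, k3⟩ := heps C' (fun v => X (v.1.1, v.2.1.1, v.2.2.1))
    (fun v hv => hXC _ ((hmC' v).mp hv)) (fun v hv => hX0 _ (fun h => hv ((hmC' v).mpr h)))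
    (by
      rintro (⟨i, j⟩ | ⟨i, t⟩ | ⟨j, t⟩)
      · rw [line1 I J T X i j]; exact m1 _ _
      · rw [line2 I J T X i t]; exact m2 _ _
      · rw [line3 I J T X j t]; exact m3 _ _)
  set X' : ℕ × ℕ × ℕ → ℝ := fun v => if h : v.1 < I ∧ v.2.1 < J ∧ v.2.2 < T then
    x' (⟨v.1, h.1⟩, ⟨v.2.1, h.2.1⟩, ⟨v.2.2, h.2.2⟩) else 0 with hX'
  have hX'v : ∀ v : Fin I × Fin J × Fin T, X' (v.1.1, v.2.1.1, v.2.2.1) = x' v := by
    intro v
    simp only [hX']
    rw [dif_pos ⟨v.1.2, v.2.1.2, v.2.2.2⟩]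
  have hX'out : ∀ v, v ∉ C → X' v = 0 := by
    intro v hv
    by_cases h : v.1 < I ∧ v.2.1 < J ∧ v.2.2 < T
    · simp only [hX']
      rw [dif_pos h]
      apply k1
      intro hc
      exact hv ((hmC' _).mp hc)
    · simp only [hX']
      rw [dif_neg h]
  have hX'ge : ∀ v ∈ C, ε ≤ X' v := by
    intro v hv
    have h := hCb v hv
    simp only [hX']
    rw [dif_pos h]
    exact k2 _ ((hmC' _).mpr hv)
  have hout1 : ∀ (Y : ℕ × ℕ × ℕ → ℝ), (∀ v, v ∉ C → Y v = 0) → ∀ a b, ¬ (a < I ∧ b < J) →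
      ∑ c ∈ range T, Y (a, b, c) = 0 := by
    intro Y hY a b h
    apply Finset.sum_eq_zero
    intro c _
    apply hY
    intro hc
    exact h ⟨(hCb _ hc).1, (hCb _ hc).2.1⟩
  have hout2 : ∀ (Y : ℕ × ℕ × ℕ → ℝ), (∀ v, v ∉ C → Y v = 0) → ∀ a c, ¬ (a < I ∧ c < T) →
      ∑ b ∈ range J, Y (a, b, c) = 0 := by
    intro Y hY a b h
    apply Finset.sum_eq_zero
    intro c _
    apply hY
    intro hc
    exact h ⟨(hCb _ hc).1, (hCb _ hc).2.2⟩
  have hout3 : ∀ (Y : ℕ × ℕ × ℕ → ℝ), (∀ v, v ∉ C → Y v = 0) → ∀ b c, ¬ (b < J ∧ c < T) →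
      ∑ a ∈ range I, Y (a, b, c) = 0 := by
    intro Y hY a b h
    apply Finset.sum_eq_zero
    intro c _
    apply hY
    intro hc
    exact h ⟨(hCb _ hc).2.1, (hCb _ hc).2.2⟩
  have s1 : ∀ a b, ∑ c ∈ range T, X' (a, b, c) = ∑ c ∈ range T, X (a, b, c) := by
    intro a b
    by_cases h : a < I ∧ b < J
    · have h1 := k3 (Sum.inl (⟨a, h.1⟩, ⟨b, h.2⟩))
      have e : ∑ v, ((lineA I J T (Sum.inl (⟨a, h.1⟩, ⟨b, h.2⟩)) v : ℕ) : ℝ) * x' v =
          ∑ v, ((lineA I J T (Sum.inl (⟨a, h.1⟩, ⟨b, h.2⟩)) v : ℕ) : ℝ) *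
            X' (v.1.1, v.2.1.1, v.2.2.1) := by
        apply Finset.sum_congr rfl
        intro v _
        rw [hX'v v]
      rw [line1 I J T X, e, line1 I J T X'] at h1
      exact h1
    · rw [hout1 X' hX'out a b h, hout1 X hX0 a b h]
  have s2 : ∀ a c, ∑ b ∈ range J, X' (a, b, c) = ∑ b ∈ range J, X (a, b, c) := by
    intro a b
    by_cases h : a < I ∧ b < T
    · have h1 := k3 (Sum.inr (Sum.inl (⟨a, h.1⟩, ⟨b, h.2⟩)))
      have e : ∑ v, ((lineA I J T (Sum.inr (Sum.inl (⟨a, h.1⟩, ⟨b, h.2⟩))) v : ℕ) : ℝ) * x' v =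
          ∑ v, ((lineA I J T (Sum.inr (Sum.inl (⟨a, h.1⟩, ⟨b, h.2⟩))) v : ℕ) : ℝ) *
            X' (v.1.1, v.2.1.1, v.2.2.1) := by
        apply Finset.sum_congr rfl
        intro v _
        rw [hX'v v]
      rw [line2 I J T X, e, line2 I J T X'] at h1
      exact h1
    · rw [hout2 X' hX'out a b h, hout2 X hX0 a b h]
  have s3 : ∀ b c, ∑ a ∈ range I, X' (a, b, c) = ∑ a ∈ range I, X (a, b, c) := by
    intro a b
    by_cases h : a < J ∧ b < T
    · have h1 := k3 (Sum.inr (Sum.inr (⟨a, h.1⟩, ⟨b, h.2⟩)))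
      have e : ∑ v, ((lineA I J T (Sum.inr (Sum.inr (⟨a, h.1⟩, ⟨b, h.2⟩))) v : ℕ) : ℝ) * x' v =
          ∑ v, ((lineA I J T (Sum.inr (Sum.inr (⟨a, h.1⟩, ⟨b, h.2⟩))) v : ℕ) : ℝ) *
            X' (v.1.1, v.2.1.1, v.2.2.1) := by
        apply Finset.sum_congr rfl
        intro v _
        rw [hX'v v]
      rw [line3 I J T X, e, line3 I J T X'] at h1
      exact h1
    · rw [hout3 X' hX'out a b h, hout3 X hX0 a b h]
  have hnsm : ∀ r : ℝ, r ∈ ZG → (n : ℝ) * r ∈ ZG := by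
    intro r hr
    obtain ⟨k, hk⟩ := (mem_ZG _).mp hr
    rw [mem_ZG]
    refine ⟨n * k, ?_⟩
    push_cast
    rw [hk]
  have hcard : (C.card : ℝ) ≤ ((I * (J * T) : ℕ) : ℝ) := by
    have h1 : C ⊆ range I ×ˢ range J ×ˢ range T := by
      intro v hv
      rw [Finset.mem_product, Finset.mem_product, Finset.mem_range, Finset.mem_range,
        Finset.mem_range]
      exact hCb v hv
    have h2 := Finset.card_le_card h1
    rw [Finset.card_product, Finset.card_product, Finset.card_range, Finset.card_range,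
      Finset.card_range] at h2
    exact_mod_cast h2
  have hnε : ((I * (J * T) : ℕ) : ℝ) ≤ (n : ℝ) * ε := by
    have h1 : ((I * (J * T) : ℕ) : ℝ) / ε ≤ n := hn₀.trans (by exact_mod_cast hn)
    rw [div_le_iff₀ hε] at h1
    exact h1
  obtain ⟨Z, z0, z1, z2, z3⟩ := round3 I J T C hCb hCc (fun v => (n : ℝ) * X' v)
    (by
      intro v hv
      rw [hX'out v hv, mul_zero])
    (by
      intro v hv
      have h1 := mul_le_mul_of_nonneg_left (hX'ge v hv) (Nat.cast_nonneg (α := ℝ) n)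
      exact (hcard.trans hnε).trans h1)
    (by
      intro a b
      rw [← Finset.mul_sum, s1]
      exact hnsm _ (m1 a b))
    (by
      intro a b
      rw [← Finset.mul_sum, s2]
      exact hnsm _ (m2 a b))
    (by
      intro a b
      rw [← Finset.mul_sum, s3]
      exact hnsm _ (m3 a b))
  refine ⟨Z, z0, ?_, ?_, ?_⟩
  · intro a b
    rw [z1, ← Finset.mul_sum, s1]
  · intro a b
    rw [z2, ← Finset.mul_sum, s2]
  · intro a b
    rw [z3, ← Finset.mul_sum, s3]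

end Pool.MP_d56194_co
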