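import Mathlib
import Pool.Agent.Lib.MP_d56194_co.I.I6

set_option autoImplicit false

namespace Pool.MP_d56194_co

open Finset

open Classical in
/-- The real table of a dilation, for arbitrary phases. -/
theorem fine_table (m N : ℕ) (lam : ℕ → ℕ) (hanti : Antitone lam)
    (hm : ∀ i, m ≤ i → lam i = 0) (hN : ∀ i, lam i ≤ N) :
    ∃ K0 : ℕ, 0 < K0 ∧ ∀ n, 0 < n → ∃ P : ℕ → ℕ, P 0 = 0 ∧
      (∀ k, ∃ a b, a ≤ m ∧ b ≤ N ∧ P k = k * (a + b) + n * ∑ i ∈ Ico a m, (lam i - b)) ∧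
      (∀ k a b, a ≤ m → b ≤ N → P k ≤ k * (a + b) + n * ∑ i ∈ Ico a m, (lam i - b)) ∧
      ∀ (T : ℕ) (κ : ℕ → ℕ), κ 0 = 0 → (∀ φ, κ φ ≤ κ (φ + 1)) → κ T = n * K0 →
        ∃ Y : ℕ → ℕ → ℕ → ℝ, (∀ i x φ, 0 ≤ Y i x φ) ∧ (∀ φ, Y 0 0 φ = 0) ∧
          (∀ i i' x x' c c', i < i' → x < x' → c < c' → 0 < Y i x c → 0 < Y i' x' c' →
            0 < Y i' x c ∧ 0 < Y i x' c ∧ 0 < Y i x c' ∧ 0 < Y i' x' c ∧ 0 < Y i' x c' ∧
              0 < Y i x' c') ∧
          (∀ i x, ∑ φ ∈ range T, Y i x φ ∈ ZG) ∧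
          (∀ i x, i < m → x < N → ∑ φ ∈ range T, Y (i + 1) (x + 1) φ =
            if x < lam i then (n : ℝ) else 0) ∧
          (∀ i φ, i < m → φ < T → ∑ x ∈ range (N + 1), Y (i + 1) x φ =
            (κ (φ + 1) : ℝ) - κ φ) ∧
          (∀ x φ, x < N → φ < T → ∑ i ∈ range (m + 1), Y i (x + 1) φ =
            (κ (φ + 1) : ℝ) - κ φ) ∧
          (∀ φ, φ < T → ∑ x ∈ range (N + 1), Y 0 x φ =
            (N : ℝ) * ((κ (φ + 1) : ℝ) - κ φ) - ((P (κ (φ + 1)) : ℝ) - P (κ φ))) ∧
          (∀ φ, φ < T → ∑ i ∈ range (m + 1), Y i 0 φ =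
            (m : ℝ) * ((κ (φ + 1) : ℝ) - κ φ) - ((P (κ (φ + 1)) : ℝ) - P (κ φ))) := by
  obtain ⟨q, M, A, B, L, hq, ⟨K0, hK0⟩, hM, hA, hB, hsol, hcut, ho1, ho2⟩ :=
    real_sol2 m N lam hanti hm hN
  have hK0pos : 0 < K0 := by
    rcases Nat.eq_zero_or_pos K0 with h | h
    · subst h
      omega
    · exact h
  refine ⟨K0, hK0pos, fun n hn0 => ?_⟩
  set E := Ext m N M L with hE
  have hE0 : ∀ i x t, 0 ≤ E i x t := fun i x t => hsol.ext_nonneg i x t
  have hqR : (0 : ℝ) < q := by exact_mod_cast hq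
  have hnR : (0 : ℝ) < n := by exact_mod_cast hn0
  set S : ℕ → ℕ := fun F => ∑ f ∈ range F, (A (f / n) + B (f / n)) with hS
  set out : ℕ → ℕ := fun t => ∑ i ∈ Ico (A t) m, (lam i - B t) with hout
  have hSval : ∀ t F, n * t ≤ F → F ≤ n * (t + 1) →
      S F = F * (A t + B t) + n * (q * out t) := by
    intro t F h1 h2
    obtain ⟨r, rfl⟩ := Nat.exists_eq_add_of_le h1
    rw [Nat.mul_succ] at h2
    have h3 := sum_div_block n hn0 (fun t => A t + B t) t r (by omega)
    simp only [hS]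
    rw [h3, hcut t]
    unfold ct
    simp only [smul_eq_mul, hout]
    rw [← Finset.mul_sum]
    ring
  set P : ℕ → ℕ := fun k => S (q * k) / q with hP
  have hPval : ∀ t k, n * t ≤ q * k → q * k ≤ n * (t + 1) →
      P k = k * (A t + B t) + n * out t := by
    intro t k h1 h2
    simp only [hP]
    rw [hSval t (q * k) h1 h2]
    have e1 : q * k * (A t + B t) + n * (q * out t) =
        q * (k * (A t + B t) + n * out t) := by ring
    rw [e1, Nat.mul_div_cancel_left _ hq]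
  have hbet : ∀ k, n * (q * k / n) ≤ q * k ∧ q * k ≤ n * (q * k / n + 1) := by
    intro k
    refine ⟨Nat.mul_div_le _ _, ?_⟩
    have := Nat.lt_div_mul_add (a := q * k) hn0
    rw [Nat.mul_succ, Nat.mul_comm n (q * k / n)]
    exact this.le
  have hqP : ∀ k, (S (q * k) : ℝ) = q * P k := by
    intro k
    have h1 := hPval (q * k / n) k (hbet k).1 (hbet k).2
    have h2 := hSval (q * k / n) (q * k) (hbet k).1 (hbet k).2
    rw [h1, h2]
    push_cast
    ring
  refine ⟨P, ?_, ?_, ?_, ?_⟩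
  · simp only [hP]
    rw [Nat.mul_zero]
    simp [hS]
  · intro k
    exact ⟨A (q * k / n), B (q * k / n), hA _, hB _,
      hPval (q * k / n) k (hbet k).1 (hbet k).2⟩
  · intro k a b ha hb
    set t := q * k / n with ht
    obtain ⟨c1, c2⟩ := hbet k
    rw [← ht] at c1 c2
    rw [hPval t k c1 c2]
    obtain ⟨r, hr⟩ := Nat.exists_eq_add_of_le c1
    have hrn : r ≤ n := by
      rw [Nat.mul_succ] at c2
      omega
    obtain ⟨r', hr'⟩ := Nat.exists_eq_add_of_le hrn
    have h1 := ho1 t a b ha hb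
    have h2 := ho2 t a b ha hb
    unfold ct at h1 h2
    rw [← Finset.mul_sum, ← Finset.mul_sum] at h1 h2
    have h1' := Nat.mul_le_mul_left r' h1
    have h2' := Nat.mul_le_mul_left r h2
    have h3 := Nat.add_le_add h1' h2'
    apply Nat.le_of_mul_le_mul_left _ hq
    simp only [hout]
    calc q * (k * (A t + B t) + n * ∑ i ∈ Ico (A t) m, (lam i - B t))
        = (q * k) * (A t + B t) + n * (q * ∑ i ∈ Ico (A t) m, (lam i - B t)) := by ring
      _ = r' * (t * (A t + B t) + q * ∑ i ∈ Ico (A t) m, (lam i - B t)) +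
          r * ((t + 1) * (A t + B t) + q * ∑ i ∈ Ico (A t) m, (lam i - B t)) := by
          rw [hr]
          nth_rewrite 1 2 [hr']
          ring
      _ ≤ r' * (t * (a + b) + q * ∑ i ∈ Ico a m, (lam i - b)) +
          r * ((t + 1) * (a + b) + q * ∑ i ∈ Ico a m, (lam i - b)) := h3
      _ = (q * k) * (a + b) + n * (q * ∑ i ∈ Ico a m, (lam i - b)) := by
          rw [hr]
          nth_rewrite 1 2 [hr']
          ring
      _ = q * (k * (a + b) + n * ∑ i ∈ Ico a m, (lam i - b)) := by ring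
  · intro T κ hκ0 hκstep hκT
    have hκmono : Monotone κ := monotone_nat_of_le_succ hκstep
    have hκΦ : q * κ T = n * M := by
      rw [hκT, hK0]
      ring
    refine ⟨fun i x φ => (1 / (q : ℝ)) * ∑ f ∈ Ico (q * κ φ) (q * κ (φ + 1)), E i x (f / n),
      ?_, ?_, ?_, ?_, ?_, ?_, ?_, ?_, ?_⟩
    · intro i x φ
      exact mul_nonneg (by positivity) (Finset.sum_nonneg (fun f _ => hE0 _ _ _))
    · intro φ
      simp only
      rw [Finset.sum_eq_zero, mul_zero]
      intro f _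
      exact Ext_zero (f / n)
    · intro a a' b b' c c' ha hb hc h1 h2
      have hpos : ∀ i x φ, 0 < (1 / (q : ℝ)) * ∑ f ∈ Ico (q * κ φ) (q * κ (φ + 1)),
          E i x (f / n) → ∃ f, q * κ φ ≤ f ∧ f < q * κ (φ + 1) ∧ 0 < E i x (f / n) := by
        intro i x φ h
        by_contra hcon
        push Not at hcon
        rw [Finset.sum_eq_zero, mul_zero] at h
        · exact lt_irrefl _ h
        · intro f hf
          rw [Finset.mem_Ico] at hf
          exact le_antisymm (hcon f hf.1 hf.2) (hE0 _ _ _)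
      have hpos2 : ∀ i x φ, (∃ f, q * κ φ ≤ f ∧ f < q * κ (φ + 1) ∧ 0 < E i x (f / n)) →
          0 < (1 / (q : ℝ)) * ∑ f ∈ Ico (q * κ φ) (q * κ (φ + 1)), E i x (f / n) := by
        intro i x φ ⟨f, h4, h5, h6⟩
        apply mul_pos (by positivity)
        exact Finset.sum_pos' (fun f _ => hE0 _ _ _) ⟨f, Finset.mem_Ico.mpr ⟨h4, h5⟩, h6⟩
      obtain ⟨f, f1, f2, f3⟩ := hpos _ _ _ h1
      obtain ⟨f', f1', f2', f3'⟩ := hpos _ _ _ h2
      have hff : f ≤ f' := by
        have h8 : q * κ (c + 1) ≤ q * κ c' := Nat.mul_le_mul_left q (hκmono (by omega))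
        omega
      have htt : f / n ≤ f' / n := Nat.div_le_div_right hff
      have key : 0 < E a' b (f / n) ∧ 0 < E a b' (f / n) ∧ 0 < E a b (f' / n) ∧
          0 < E a' b' (f / n) ∧ 0 < E a' b (f' / n) ∧ 0 < E a b' (f' / n) := by
        rcases htt.eq_or_lt with h3 | h3
        · rw [← h3] at f3' ⊢
          obtain ⟨k1, k2⟩ := hsol.ext_corners2 hq a a' b b' (f / n) ha hb f3 f3'
          exact ⟨k1, k2, f3, f3', k1, k2⟩
        · exact hsol.ext_corners hq a a' b b' (f / n) (f' / n) ha hb h3 f3 f3'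
      obtain ⟨k1, k2, k3, k4, k5, k6⟩ := key
      exact ⟨hpos2 _ _ _ ⟨f, f1, f2, k1⟩, hpos2 _ _ _ ⟨f, f1, f2, k2⟩,
        hpos2 _ _ _ ⟨f', f1', f2', k3⟩, hpos2 _ _ _ ⟨f, f1, f2, k4⟩,
        hpos2 _ _ _ ⟨f', f1', f2', k5⟩, hpos2 _ _ _ ⟨f', f1', f2', k6⟩⟩
    all_goals
      have hv1 : ∀ i x, ∑ φ ∈ range T, (1 / (q : ℝ)) *
          ∑ f ∈ Ico (q * κ φ) (q * κ (φ + 1)), E i x (f / n) =
          (1 / (q : ℝ)) * (n * ∑ t ∈ range M, E i x t) := by
        intro i x
        rw [← Finset.mul_sum,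
          sum_tele (fun φ => q * κ φ) (fun f => E i x (f / n)) T
            (fun φ _ => Nat.mul_le_mul_left q (hκstep φ)) (by simp only [hκ0, Nat.mul_zero])]
        rw [hκΦ]
        have h2 := sum_div_block n hn0 (fun t => E i x t) M 0 (Nat.zero_le _)
        rw [Nat.add_zero, zero_nsmul, add_zero, nsmul_eq_mul] at h2
        rw [h2]
      have hfM : ∀ φ f, φ < T → f ∈ Ico (q * κ φ) (q * κ (φ + 1)) → f / n < M := by
        intro φ f hφ hf
        rw [Finset.mem_Ico] at hf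
        have h8 : q * κ (φ + 1) ≤ q * κ T := Nat.mul_le_mul_left q (hκmono (by omega))
        rw [hκΦ] at h8
        rw [Nat.div_lt_iff_lt_mul hn0, Nat.mul_comm]
        omega
      have hcardI : ∀ φ, ((Ico (q * κ φ) (q * κ (φ + 1))).card : ℝ) =
          (q : ℝ) * ((κ (φ + 1) : ℝ) - κ φ) := by
        intro φ
        rw [Nat.card_Ico, ← Nat.mul_sub, Nat.cast_mul, Nat.cast_sub (hκstep φ)]
      have hSdiff : ∀ φ, ∑ f ∈ Ico (q * κ φ) (q * κ (φ + 1)),
          ((A (f / n) + B (f / n) : ℕ) : ℝ) = q * ((P (κ (φ + 1)) : ℝ) - P (κ φ)) := by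
        intro φ
        have h1 : (S (q * κ (φ + 1)) : ℝ) = S (q * κ φ) + ∑ f ∈ Ico (q * κ φ) (q * κ (φ + 1)),
            ((A (f / n) + B (f / n) : ℕ) : ℝ) := by
          simp only [hS]
          rw [Nat.cast_sum, Nat.cast_sum,
            Finset.sum_range_add_sum_Ico _ (Nat.mul_le_mul_left q (hκstep φ))]
        rw [mul_sub, ← hqP, ← hqP, h1]
        ring
    · intro i x
      simp only
      rw [hv1]
      obtain ⟨z, hz⟩ := hsol.ext_time K0 hK0 i x
      rw [hz, mem_ZG]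
      refine ⟨(n : ℤ) * z, ?_⟩
      push_cast
      field_simp
    · intro i x hi hx
      simp only
      rw [hv1]
      have h2 : ∑ t ∈ range M, E (i + 1) (x + 1) t = if x < lam i then (q : ℝ) else 0 := by
        have h3 : ∑ t ∈ range M, E (i + 1) (x + 1) t = ∑ t ∈ range M, L i x t := rfl
        rw [h3]
        split_ifs with hd
        · exact hsol.cell i x hd
        · exact Finset.sum_eq_zero (fun t _ => hsol.zero_of_not i x t hd)
      rw [h2]
      split_ifs
      · field_simp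
      · simp
    · intro i φ hi hφ
      simp only
      rw [← Finset.mul_sum, Finset.sum_comm,
        Finset.sum_congr rfl (fun f hf => hsol.ext_rowsum i (f / n) hi (hfM φ f hφ hf)),
        Finset.sum_const, nsmul_eq_mul, mul_one, hcardI]
      field_simp
    · intro x φ hx hφ
      simp only
      rw [← Finset.mul_sum, Finset.sum_comm,
        Finset.sum_congr rfl (fun f hf => hsol.ext_colsum x (f / n) hx (hfM φ f hφ hf)),
        Finset.sum_const, nsmul_eq_mul, mul_one, hcardI]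
      field_simp
    · intro φ hφ
      simp only
      rw [← Finset.mul_sum, Finset.sum_comm,
        Finset.sum_congr rfl (fun f hf => hsol.ext_row0 (f / n) (hfM φ f hφ hf)),
        Finset.sum_sub_distrib, hSdiff, Finset.sum_const, nsmul_eq_mul, hcardI]
      field_simp
    · intro φ hφ
      simp only
      rw [← Finset.mul_sum, Finset.sum_comm,
        Finset.sum_congr rfl (fun f hf => hsol.ext_col0 (f / n) (hfM φ f hφ hf)),
        Finset.sum_sub_distrib, hSdiff, Finset.sum_const, nsmul_eq_mul, hcardI]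
      field_simp

end Pool.MP_d56194_co
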