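import Mathlib
import Pool.Agent.Lib.MP_d56194_co.J.J2
import Pool.Agent.Lib.MP_d56194_co.J.J3

set_option autoImplicit false

namespace Pool.MP_d56194_co

open Finset

/-- the label of the extended index -/
def lft (g : ℕ → ℕ) : ℕ → ℕ
  | 0 => 0
  | (r + 1) => g r + 1

theorem lft_lt (g : ℕ → ℕ) (m I : ℕ) (hg : ∀ i, i < m → g i < I) (i : ℕ) (hi : i < m + 1) :
    lft g i < I + 1 := by
  rcases i with _ | i
  · simp [lft]
  · have := hg i (by omega)
    simp only [lft]
    omega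

theorem lft_lt_imp (g : ℕ → ℕ) (m : ℕ) (hg : ∀ i i', i ≤ i' → i' < m → g i ≤ g i') (i i' : ℕ)
    (hi : i < m + 1) (h : lft g i < lft g i') : i < i' := by
  by_contra hcon
  rcases i' with _ | i'
  · simp [lft] at h
  · rcases i with _ | i
    · omega
    · have := hg i' i (by omega) (by omega)
      simp only [lft] at h
      omega

theorem lft_zero (g : ℕ → ℕ) (i : ℕ) : lft g i = 0 ↔ i = 0 := by
  rcases i with _ | i
  · simp [lft]
  · simp [lft]

theorem sum_if_eq (P Q : Prop) [Decidable P] [Decidable Q] (h J : ℕ) (hh : h < J) (y : ℝ) :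
    ∑ b ∈ range J, (if P ∧ h = b ∧ Q then y else 0) = if P ∧ Q then y else 0 := by
  by_cases hPQ : P ∧ Q
  · rw [if_pos hPQ, Finset.sum_eq_single h]
    · rw [if_pos ⟨hPQ.1, rfl, hPQ.2⟩]
    · intro b _ hb
      rw [if_neg (fun hc => hb hc.2.1.symm)]
    · intro hc
      exact absurd (Finset.mem_range.mpr hh) hc
  · rw [if_neg hPQ]
    apply Finset.sum_eq_zero
    intro b _
    rw [if_neg (fun hc => hPQ ⟨hc.1, hc.2.2⟩)]

theorem sum_if_eq' (P Q : Prop) [Decidable P] [Decidable Q] (h J : ℕ) (hh : h < J) (y : ℝ) :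
    ∑ b ∈ range J, (if h = b ∧ P ∧ Q then y else 0) = if P ∧ Q then y else 0 := by
  by_cases hPQ : P ∧ Q
  · rw [if_pos hPQ, Finset.sum_eq_single h]
    · rw [if_pos ⟨rfl, hPQ.1, hPQ.2⟩]
    · intro b _ hb
      rw [if_neg (fun hc => hb hc.1.symm)]
    · intro hc
      exact absurd (Finset.mem_range.mpr hh) hc
  · rw [if_neg hPQ]
    apply Finset.sum_eq_zero
    intro b _
    rw [if_neg (fun hc => hPQ ⟨hc.2.1, hc.2.2⟩)]

/-- The integral table of the blocks. -/
theorem group_table (I J T : ℕ) : ∃ n₀ : ℕ, ∀ n, n₀ ≤ n → ∀ (m N : ℕ) (lam : ℕ → ℕ)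
    (g1 g2 : ℕ → ℕ), (∀ i i', i ≤ i' → i' < m → g1 i ≤ g1 i') → (∀ i, i < m → g1 i < I) →
    (∀ i i', i ≤ i' → i' < N → g2 i ≤ g2 i') → (∀ i, i < N → g2 i < J) →
    ∀ (P κ : ℕ → ℕ), (∀ φ, κ φ ≤ κ (φ + 1)) → ∀ (Y : ℕ → ℕ → ℕ → ℝ), (∀ i x φ, 0 ≤ Y i x φ) →
    (∀ φ, Y 0 0 φ = 0) →
    (∀ i i' x x' c c', i < i' → x < x' → c < c' → 0 < Y i x c → 0 < Y i' x' c' →
      0 < Y i' x c ∧ 0 < Y i x' c ∧ 0 < Y i x c' ∧ 0 < Y i' x' c ∧ 0 < Y i' x c' ∧
        0 < Y i x' c') →
    (∀ i x, ∑ φ ∈ range T, Y i x φ ∈ ZG) →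
    (∀ i x, i < m → x < N → ∑ φ ∈ range T, Y (i + 1) (x + 1) φ =
      if x < lam i then (n : ℝ) else 0) →
    (∀ i φ, i < m → φ < T → ∑ x ∈ range (N + 1), Y (i + 1) x φ = (κ (φ + 1) : ℝ) - κ φ) →
    (∀ x φ, x < N → φ < T → ∑ i ∈ range (m + 1), Y i (x + 1) φ = (κ (φ + 1) : ℝ) - κ φ) →
    (∀ φ, φ < T → ∑ x ∈ range (N + 1), Y 0 x φ =
      (N : ℝ) * ((κ (φ + 1) : ℝ) - κ φ) - ((P (κ (φ + 1)) : ℝ) - P (κ φ))) →
    (∀ φ, φ < T → ∑ i ∈ range (m + 1), Y i 0 φ =
      (m : ℝ) * ((κ (φ + 1) : ℝ) - κ φ) - ((P (κ (φ + 1)) : ℝ) - P (κ φ))) →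
    ∃ Z : ℕ → ℕ → ℕ → ℕ,
      (∀ a b, ∑ φ ∈ range T, Z a b φ = n * (n * ∑ i ∈ range m, ∑ x ∈ range N,
        if g1 i = a ∧ g2 x = b ∧ x < lam i then 1 else 0)) ∧
      (∀ a φ, φ < T → ∑ b ∈ range J, Z a b φ ≤
        n * (((range m).filter (fun i => g1 i = a)).card * (κ (φ + 1) - κ φ))) ∧
      (∀ b φ, φ < T → ∑ a ∈ range I, Z a b φ ≤
        n * (((range N).filter (fun x => g2 x = b)).card * (κ (φ + 1) - κ φ))) ∧
      (∀ φ, φ < T → ∑ a ∈ range I, ∑ b ∈ range J, Z a b φ + n * P (κ φ) =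
        n * P (κ (φ + 1))) := by
  classical
  obtain ⟨n₀, hn₀⟩ := table_scale (I + 1) (J + 1) T
  refine ⟨n₀, ?_⟩
  intro n hn m N lam g1 g2 hg1 hg1I hg2 hg2J P κ hκ Y hY0 hY00 hYc hYt hYcell hYr hYx hYr0 hYx0
  set X : ℕ × ℕ × ℕ → ℝ := fun v => ∑ i ∈ range (m + 1), ∑ x ∈ range (N + 1),
    if lft g1 i = v.1 ∧ lft g2 x = v.2.1 ∧ v.2.2 < T then Y i x v.2.2 else 0 with hX
  have hXv : ∀ a b c, X (a, b, c) = ∑ i ∈ range (m + 1), ∑ x ∈ range (N + 1),
      if lft g1 i = a ∧ lft g2 x = b ∧ c < T then Y i x c else 0 := fun a b c => rfl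
  have hXnn : ∀ v, 0 ≤ X v := by
    intro v
    apply Finset.sum_nonneg
    intro i _
    apply Finset.sum_nonneg
    intro x _
    split_ifs
    · exact hY0 _ _ _
    · exact le_rfl
  have hpos1 : ∀ a b c, 0 < X (a, b, c) → c < T ∧ ∃ i x, i < m + 1 ∧ x < N + 1 ∧
      lft g1 i = a ∧ lft g2 x = b ∧ 0 < Y i x c := by
    intro a b c h
    by_contra hcon
    have h0 : X (a, b, c) = 0 := by
      rw [hXv]
      apply Finset.sum_eq_zero
      intro i hi
      apply Finset.sum_eq_zero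
      intro x hx
      rw [Finset.mem_range] at hi hx
      split_ifs with h1
      · apply le_antisymm _ (hY0 _ _ _)
        by_contra h2
        exact hcon ⟨h1.2.2, i, x, hi, hx, h1.1, h1.2.1, not_le.mp h2⟩
      · rfl
    rw [h0] at h
    exact lt_irrefl _ h
  have hpos2 : ∀ i x c, i < m + 1 → x < N + 1 → c < T → 0 < Y i x c →
      0 < X (lft g1 i, lft g2 x, c) := by
    intro i x c hi hx hc h
    rw [hXv]
    apply Finset.sum_pos'
    · intro i' _
      apply Finset.sum_nonneg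
      intro x' _
      split_ifs
      · exact hY0 _ _ _
      · exact le_rfl
    · refine ⟨i, Finset.mem_range.mpr hi, ?_⟩
      apply Finset.sum_pos'
      · intro x' _
        split_ifs
        · exact hY0 _ _ _
        · exact le_rfl
      · refine ⟨x, Finset.mem_range.mpr hx, ?_⟩
        rw [if_pos ⟨rfl, rfl, hc⟩]
        exact h
  set C : Finset (ℕ × ℕ × ℕ) := (range (I + 1) ×ˢ range (J + 1) ×ˢ range T).filter
    (fun v => 0 < X v) with hC
  have hmemC : ∀ a b c, (a, b, c) ∈ C ↔ 0 < X (a, b, c) := by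
    intro a b c
    rw [hC, Finset.mem_filter, Finset.mem_product, Finset.mem_product, Finset.mem_range,
      Finset.mem_range, Finset.mem_range]
    constructor
    · exact fun h => h.2
    · intro h
      obtain ⟨h1, i, x, hi, hx, h2, h3, _⟩ := hpos1 a b c h
      refine ⟨⟨?_, ?_, h1⟩, h⟩
      · rw [← h2]
        exact lft_lt g1 m I hg1I i hi
      · rw [← h3]
        exact lft_lt g2 N J hg2J x hx
  have hCb : ∀ v ∈ C, v.1 < I + 1 ∧ v.2.1 < J + 1 ∧ v.2.2 < T := by
    intro v hv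
    rw [hC, Finset.mem_filter, Finset.mem_product, Finset.mem_product, Finset.mem_range,
      Finset.mem_range, Finset.mem_range] at hv
    exact hv.1
  have hCc : ∀ a a' b b' c c' : ℕ, a < a' → b < b' → c < c' → (a, b, c) ∈ C →
      (a', b', c') ∈ C → (a', b, c) ∈ C ∧ (a, b', c) ∈ C ∧ (a, b, c') ∈ C ∧ (a', b', c) ∈ C ∧
        (a', b, c') ∈ C ∧ (a, b', c') ∈ C := by
    intro a a' b b' c c' ha hb hc h1 h2
    simp only [hmemC] at h1 h2 ⊢
    obtain ⟨hcT, i, x, hi, hx, rfl, rfl, hy⟩ := hpos1 _ _ _ h1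
    obtain ⟨hcT', i', x', hi', hx', rfl, rfl, hy'⟩ := hpos1 _ _ _ h2
    have hii := lft_lt_imp g1 m hg1 i i' hi ha
    have hxx := lft_lt_imp g2 N hg2 x x' hx hb
    obtain ⟨k1, k2, k3, k4, k5, k6⟩ := hYc i i' x x' c c' hii hxx hc hy hy'
    exact ⟨hpos2 _ _ _ hi' hx hcT k1, hpos2 _ _ _ hi hx' hcT k2, hpos2 _ _ _ hi hx hcT' k3,
      hpos2 _ _ _ hi' hx' hcT k4, hpos2 _ _ _ hi' hx hcT' k5, hpos2 _ _ _ hi hx' hcT' k6⟩
  have hX0 : ∀ v, v ∉ C → X v = 0 := by
    rintro ⟨a, b, c⟩ hv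
    rw [hmemC] at hv
    exact le_antisymm (not_lt.mp hv) (hXnn _)
  have hXC : ∀ v ∈ C, 0 < X v := by
    rintro ⟨a, b, c⟩ hv
    exact (hmemC a b c).mp hv
  -- the line sums
  have v1 : ∀ a b, ∑ c ∈ range T, X (a, b, c) = ∑ i ∈ range (m + 1), ∑ x ∈ range (N + 1),
      if lft g1 i = a ∧ lft g2 x = b then ∑ c ∈ range T, Y i x c else 0 := by
    intro a b
    simp only [hXv]
    rw [Finset.sum_comm]
    apply Finset.sum_congr rfl
    intro i _
    rw [Finset.sum_comm]
    apply Finset.sum_congr rfl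
    intro x _
    by_cases h : lft g1 i = a ∧ lft g2 x = b
    · rw [if_pos h]
      apply Finset.sum_congr rfl
      intro c hc
      rw [if_pos ⟨h.1, h.2, Finset.mem_range.mp hc⟩]
    · rw [if_neg h]
      apply Finset.sum_eq_zero
      intro c _
      rw [if_neg (fun hcon => h ⟨hcon.1, hcon.2.1⟩)]
  have v2 : ∀ a c, c < T → ∑ b ∈ range (J + 1), X (a, b, c) = ∑ i ∈ range (m + 1),
      if lft g1 i = a then ∑ x ∈ range (N + 1), Y i x c else 0 := by
    intro a c hc
    simp only [hXv]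
    rw [Finset.sum_comm]
    apply Finset.sum_congr rfl
    intro i _
    rw [Finset.sum_comm]
    have h1 : ∀ x ∈ range (N + 1), ∑ b ∈ range (J + 1),
        (if lft g1 i = a ∧ lft g2 x = b ∧ c < T then Y i x c else 0) =
        if lft g1 i = a ∧ c < T then Y i x c else 0 := fun x hx =>
      sum_if_eq _ _ (lft g2 x) (J + 1) (lft_lt g2 N J hg2J x (Finset.mem_range.mp hx)) _
    rw [Finset.sum_congr rfl h1]
    by_cases h : lft g1 i = a
    · rw [if_pos h]
      apply Finset.sum_congr rfl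
      intro x _
      rw [if_pos ⟨h, hc⟩]
    · rw [if_neg h]
      apply Finset.sum_eq_zero
      intro x _
      rw [if_neg (fun hcon => h hcon.1)]
  have v3 : ∀ b c, c < T → ∑ a ∈ range (I + 1), X (a, b, c) = ∑ x ∈ range (N + 1),
      if lft g2 x = b then ∑ i ∈ range (m + 1), Y i x c else 0 := by
    intro b c hc
    simp only [hXv]
    rw [Finset.sum_comm]
    have h0 : ∀ i ∈ range (m + 1), ∑ a ∈ range (I + 1), ∑ x ∈ range (N + 1),
        (if lft g1 i = a ∧ lft g2 x = b ∧ c < T then Y i x c else 0) =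
        ∑ x ∈ range (N + 1), if lft g2 x = b ∧ c < T then Y i x c else 0 := by
      intro i hi
      rw [Finset.sum_comm]
      apply Finset.sum_congr rfl
      intro x _
      exact sum_if_eq' _ _ (lft g1 i) (I + 1) (lft_lt g1 m I hg1I i (Finset.mem_range.mp hi)) _
    rw [Finset.sum_congr rfl h0, Finset.sum_comm]
    apply Finset.sum_congr rfl
    intro x _
    by_cases h : lft g2 x = b
    · rw [if_pos h]
      apply Finset.sum_congr rfl
      intro i _
      rw [if_pos ⟨h, hc⟩]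
    · rw [if_neg h]
      apply Finset.sum_eq_zero
      intro i _
      rw [if_neg (fun hcon => h hcon.1)]
  have hout2 : ∀ a c, ¬ c < T → ∑ b ∈ range (J + 1), X (a, b, c) = 0 := by
    intro a c hc
    apply Finset.sum_eq_zero
    intro b _
    by_contra hne
    exact hc (hpos1 a b c (lt_of_le_of_ne (hXnn _) (Ne.symm hne))).1
  have hout3 : ∀ b c, ¬ c < T → ∑ a ∈ range (I + 1), X (a, b, c) = 0 := by
    intro b c hc
    apply Finset.sum_eq_zero
    intro a _
    by_contra hne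
    exact hc (hpos1 a b c (lt_of_le_of_ne (hXnn _) (Ne.symm hne))).1
  have m1 : ∀ a b, ∑ c ∈ range T, X (a, b, c) ∈ ZG := by
    intro a b
    rw [v1]
    apply sum_mem
    intro i _
    apply sum_mem
    intro x _
    split_ifs
    · exact hYt i x
    · exact zero_mem _
  have m2 : ∀ a c, ∑ b ∈ range (J + 1), X (a, b, c) ∈ ZG := by
    intro a c
    by_cases hc : c < T
    · rw [v2 a c hc]
      apply sum_mem
      intro i hi
      split_ifs
      · rcases i with _ | i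
        · rw [hYr0 c hc, mem_ZG]
          refine ⟨(N : ℤ) * ((κ (c + 1) : ℤ) - κ c) - ((P (κ (c + 1)) : ℤ) - P (κ c)), ?_⟩
          push_cast
          ring
        · rw [hYr i c (by rw [Finset.mem_range] at hi; omega) hc, mem_ZG]
          refine ⟨(κ (c + 1) : ℤ) - κ c, ?_⟩
          push_cast
          ring
      · exact zero_mem _
    · rw [hout2 a c hc]
      exact zero_mem _
  have m3 : ∀ b c, ∑ a ∈ range (I + 1), X (a, b, c) ∈ ZG := by
    intro b c
    by_cases hc : c < T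
    · rw [v3 b c hc]
      apply sum_mem
      intro x hx
      split_ifs
      · rcases x with _ | x
        · rw [hYx0 c hc, mem_ZG]
          refine ⟨(m : ℤ) * ((κ (c + 1) : ℤ) - κ c) - ((P (κ (c + 1)) : ℤ) - P (κ c)), ?_⟩
          push_cast
          ring
        · rw [hYx x c (by rw [Finset.mem_range] at hx; omega) hc, mem_ZG]
          refine ⟨(κ (c + 1) : ℤ) - κ c, ?_⟩
          push_cast
          ring
      · exact zero_mem _
    · rw [hout3 b c hc]
      exact zero_mem _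
  obtain ⟨Z, z0, z1, z2, z3⟩ := hn₀ n hn C hCb hCc X hXC hX0 m1 m2 m3
  have w2 : ∀ a c, c < T → ∑ b ∈ range (J + 1), (Z (a + 1, b, c) : ℝ) =
      n * ((((range m).filter (fun i => g1 i = a)).card : ℝ) *
        ((κ (c + 1) : ℝ) - κ c)) := by
    intro a c hc
    rw [z2, v2 (a + 1) c hc, Finset.sum_range_succ']
    have h1 : ¬ lft g1 0 = a + 1 := by simp [lft]
    rw [if_neg h1, add_zero]
    congr 1
    rw [Finset.card_filter, Nat.cast_sum, Finset.sum_mul]
    apply Finset.sum_congr rfl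
    intro i hi
    rw [hYr i c (Finset.mem_range.mp hi) hc]
    have h2 : (lft g1 (i + 1) = a + 1) ↔ (g1 i = a) := by simp [lft]
    simp only [h2]
    split_ifs
    · simp
    · simp
  have w3 : ∀ b c, c < T → ∑ a ∈ range (I + 1), (Z (a, b + 1, c) : ℝ) =
      n * ((((range N).filter (fun x => g2 x = b)).card : ℝ) *
        ((κ (c + 1) : ℝ) - κ c)) := by
    intro b c hc
    rw [z3, v3 (b + 1) c hc, Finset.sum_range_succ']
    have h1 : ¬ lft g2 0 = b + 1 := by simp [lft]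
    rw [if_neg h1, add_zero]
    congr 1
    rw [Finset.card_filter, Nat.cast_sum, Finset.sum_mul]
    apply Finset.sum_congr rfl
    intro x hx
    rw [hYx x c (Finset.mem_range.mp hx) hc]
    have h2 : (lft g2 (x + 1) = b + 1) ↔ (g2 x = b) := by simp [lft]
    simp only [h2]
    split_ifs
    · simp
    · simp
  have hZ00 : ∀ c, Z (0, 0, c) = 0 := by
    intro c
    apply z0
    rw [hmemC]
    intro hcon
    obtain ⟨_, i, x, _, _, h1, h2, h3⟩ := hpos1 0 0 c hcon
    rw [lft_zero] at h1 h2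
    subst h1 h2
    rw [hY00] at h3
    exact lt_irrefl _ h3
  have w2' : ∀ c, c < T → ∑ b ∈ range J, (Z (0, b + 1, c) : ℝ) =
      n * ((N : ℝ) * ((κ (c + 1) : ℝ) - κ c) - ((P (κ (c + 1)) : ℝ) - P (κ c))) := by
    intro c hc
    have h1 := z2 0 c
    rw [v2 0 c hc, Finset.sum_range_succ', hZ00, Finset.sum_range_succ'] at h1
    have h2 : ∑ i ∈ range m, (if lft g1 (i + 1) = 0 then
        ∑ x ∈ range (N + 1), Y (i + 1) x c else 0) = 0 := by
      apply Finset.sum_eq_zero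
      intro i _
      rw [if_neg]
      simp [lft]
    have h3 : lft g1 0 = 0 := rfl
    rw [h2, if_pos h3, hYr0 c hc] at h1
    simp only [Nat.cast_zero, add_zero, zero_add] at h1
    exact h1
  refine ⟨fun a b c => Z (a + 1, b + 1, c), ?_, ?_, ?_, ?_⟩
  · intro a b
    have h1 : ((∑ φ ∈ range T, Z (a + 1, b + 1, φ) : ℕ) : ℝ) =
        ((n * (n * ∑ i ∈ range m, ∑ x ∈ range N,
        if g1 i = a ∧ g2 x = b ∧ x < lam i then 1 else 0) : ℕ) : ℝ) := by
      rw [Nat.cast_sum, z1, v1, Nat.cast_mul]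
      congr 1
      rw [Finset.sum_range_succ']
      have h2 : ∑ x ∈ range (N + 1), (if lft g1 0 = a + 1 ∧ lft g2 x = b + 1 then
          ∑ c ∈ range T, Y 0 x c else 0) = 0 := by
        apply Finset.sum_eq_zero
        intro x _
        rw [if_neg]
        simp [lft]
      rw [h2, add_zero, Nat.cast_mul, Nat.cast_sum, Finset.mul_sum]
      apply Finset.sum_congr rfl
      intro i hi
      rw [Finset.sum_range_succ']
      have h3 : ¬ (lft g1 (i + 1) = a + 1 ∧ lft g2 0 = b + 1) := by simp [lft]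
      rw [if_neg h3, add_zero, Nat.cast_sum, Finset.mul_sum]
      apply Finset.sum_congr rfl
      intro x hx
      rw [hYcell i x (Finset.mem_range.mp hi) (Finset.mem_range.mp hx)]
      have h4 : (lft g1 (i + 1) = a + 1 ∧ lft g2 (x + 1) = b + 1) ↔ (g1 i = a ∧ g2 x = b) := by
        simp [lft]
      simp only [h4]
      by_cases h5 : g1 i = a ∧ g2 x = b
      · rw [if_pos h5]
        by_cases h6 : x < lam i
        · rw [if_pos h6, if_pos ⟨h5.1, h5.2, h6⟩]
          simp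
        · rw [if_neg h6, if_neg (fun hc => h6 hc.2.2)]
          simp
      · rw [if_neg h5, if_neg (fun hc => h5 ⟨hc.1, hc.2.1⟩)]
        simp
    exact_mod_cast h1
  · intro a c hc
    have h1 : ((∑ b ∈ range J, Z (a + 1, b + 1, c) : ℕ) : ℝ) ≤
        ((n * (((range m).filter (fun i => g1 i = a)).card * (κ (c + 1) - κ c)) : ℕ) : ℝ) := by
      have h2 := w2 a c hc
      rw [Finset.sum_range_succ'] at h2
      rw [Nat.cast_mul, Nat.cast_mul, Nat.cast_sub (hκ c), ← h2, Nat.cast_sum]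
      have : (0 : ℝ) ≤ (Z (a + 1, 0, c) : ℝ) := Nat.cast_nonneg _
      linarith
    exact_mod_cast h1
  · intro b c hc
    have h1 : ((∑ a ∈ range I, Z (a + 1, b + 1, c) : ℕ) : ℝ) ≤
        ((n * (((range N).filter (fun x => g2 x = b)).card * (κ (c + 1) - κ c)) : ℕ) : ℝ) := by
      have h2 := w3 b c hc
      rw [Finset.sum_range_succ'] at h2
      rw [Nat.cast_mul, Nat.cast_mul, Nat.cast_sub (hκ c), ← h2, Nat.cast_sum]
      have : (0 : ℝ) ≤ (Z (0, b + 1, c) : ℝ) := Nat.cast_nonneg _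
      linarith
    exact_mod_cast h1
  · intro c hc
    have h1 : ((∑ a ∈ range I, ∑ b ∈ range J, Z (a + 1, b + 1, c) + n * P (κ c) : ℕ) : ℝ) =
        ((n * P (κ (c + 1)) : ℕ) : ℝ) := by
      rw [Nat.cast_add, Finset.sum_comm, Nat.cast_sum]
      have h2 : ∀ b ∈ range J, ((∑ a ∈ range I, Z (a + 1, b + 1, c) : ℕ) : ℝ) =
          n * ((((range N).filter (fun x => g2 x = b)).card : ℝ) *
            ((κ (c + 1) : ℝ) - κ c)) - Z (0, b + 1, c) := by
        intro b _
        rw [← w3 b c hc, Finset.sum_range_succ', Nat.cast_sum]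
        ring
      have h3 : ∑ b ∈ range J, (((range N).filter (fun x => g2 x = b)).card : ℝ) = N := by
        rw [← Nat.cast_sum, ← Finset.card_eq_sum_card_fiberwise, Finset.card_range]
        intro x hx
        rw [Finset.mem_coe, Finset.mem_range] at hx
        exact Finset.mem_coe.mpr (Finset.mem_range.mpr (hg2J x hx))
      rw [Finset.sum_congr rfl h2, Finset.sum_sub_distrib, w2' c hc, ← Finset.mul_sum,
        ← Finset.sum_mul, h3]
      push_cast
      ring
    exact_mod_cast h1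

end Pool.MP_d56194_co
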