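import Mathlib
import Pool.Agent.Lib.MP_d56194_co.H.H7
import Pool.Agent.Lib.MP_d56194_co.I.I8
import Pool.Agent.Lib.MP_d56194_co.J.J4

set_option autoImplicit false

namespace Pool.MP_d56194_co

open Finset

/-- a monotone enumeration of a finite set of levels -/
theorem enum_levels (E T : ℕ) (K : Finset ℕ) (hK : ∀ k ∈ K, k ≤ E) (hcard : K.card + 2 ≤ T) :
    ∃ κ : ℕ → ℕ, κ 0 = 0 ∧ (∀ j, κ j ≤ κ (j + 1)) ∧ κ T = E ∧
      ∀ k ∈ K, ∃ j, j ≤ T ∧ κ j = k := by
  classical
  set K' := insert 0 (insert E K) with hK'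
  have hc : K'.card ≤ T := by
    have h1 := Finset.card_insert_le 0 (insert E K)
    have h2 := Finset.card_insert_le E K
    rw [← hK'] at h1
    omega
  have hle : ∀ k ∈ K', k ≤ E := by
    intro k hk
    rw [hK', Finset.mem_insert, Finset.mem_insert] at hk
    rcases hk with h | h | h
    · omega
    · omega
    · exact hK k h
  have hmem : ∀ j (hj : j < K'.card), K'.orderEmbOfFin rfl ⟨j, hj⟩ ∈ K' := fun j hj =>
    Finset.orderEmbOfFin_mem _ _ _
  have hsurj : ∀ k ∈ K', ∃ j, ∃ hj : j < K'.card, K'.orderEmbOfFin rfl ⟨j, hj⟩ = k := by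
    intro k hk
    have h1 : k ∈ Set.range (K'.orderEmbOfFin rfl) := by
      rw [Finset.range_orderEmbOfFin]
      exact hk
    obtain ⟨⟨j, hj⟩, h2⟩ := h1
    exact ⟨j, hj, h2⟩
  refine ⟨fun j => if h : j < K'.card then K'.orderEmbOfFin rfl ⟨j, h⟩ else E, ?_, ?_, ?_, ?_⟩
  · obtain ⟨j, hj, h1⟩ := hsurj 0 (Finset.mem_insert_self _ _)
    have hpos : 0 < K'.card := by omega
    simp only
    rw [dif_pos hpos]
    have h2 : K'.orderEmbOfFin rfl ⟨0, hpos⟩ ≤ K'.orderEmbOfFin rfl ⟨j, hj⟩ :=
      (K'.orderEmbOfFin rfl).monotone (Fin.mk_le_mk.mpr (Nat.zero_le j))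
    omega
  · intro j
    simp only
    by_cases h1 : j + 1 < K'.card
    · rw [dif_pos h1, dif_pos (by omega)]
      exact (K'.orderEmbOfFin rfl).monotone (Fin.mk_le_mk.mpr (Nat.le_succ j))
    · rw [dif_neg h1]
      split_ifs with h2
      · exact hle _ (hmem j h2)
      · exact le_rfl
  · simp only
    rw [dif_neg (by omega)]
  · intro k hk
    obtain ⟨j, hj, h1⟩ := hsurj k (by
      rw [hK', Finset.mem_insert, Finset.mem_insert]
      exact Or.inr (Or.inr hk))
    refine ⟨j, by omega, ?_⟩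
    simp only
    rw [dif_pos hj]
    exact h1

/-- the label of an index: the number of larger values -/
def lab (f : ℕ → ℕ) (m i : ℕ) : ℕ :=
  (((range m).image f).filter (fun l => f i < l)).card

theorem lab_lt (f : ℕ → ℕ) (m s : ℕ) (hs : ((range m).image f).card ≤ s) (i : ℕ) (hi : i < m) :
    lab f m i < s := by
  refine lt_of_lt_of_le ?_ hs
  apply Finset.card_lt_card
  refine ⟨Finset.filter_subset _ _, ?_⟩
  intro h
  have h1 : f i ∈ (range m).image f := Finset.mem_image_of_mem _ (Finset.mem_range.mpr hi)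
  have h2 := h h1
  rw [Finset.mem_filter] at h2
  exact lt_irrefl _ h2.2

theorem lab_mono (f : ℕ → ℕ) (m : ℕ) (hf : Antitone f) (i i' : ℕ) (h : i ≤ i') :
    lab f m i ≤ lab f m i' := by
  apply Finset.card_le_card
  intro l hl
  rw [Finset.mem_filter] at hl ⊢
  exact ⟨hl.1, lt_of_le_of_lt (hf h) hl.2⟩

theorem lab_eq (f : ℕ → ℕ) (m : ℕ) (hf : Antitone f) (i i' : ℕ) (hi : i < m) (hi' : i' < m)
    (h : lab f m i = lab f m i') : f i = f i' := by
  have key : ∀ i i', i < m → i' < m → i ≤ i' → lab f m i = lab f m i' → f i = f i' := by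
    intro i i' hi hi' hii h
    by_contra hne
    have h1 : f i' < f i := lt_of_le_of_ne (hf hii) (Ne.symm hne)
    have h2 : lab f m i < lab f m i' := by
      apply Finset.card_lt_card
      constructor
      · intro l hl
        have hl' := Finset.mem_filter.mp hl
        exact Finset.mem_filter.mpr ⟨hl'.1, h1.trans hl'.2⟩
      · intro hsub
        have h3 : f i ∈ ((range m).image f).filter (fun l => f i' < l) :=
          Finset.mem_filter.mpr ⟨Finset.mem_image_of_mem _ (Finset.mem_range.mpr hi), h1⟩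
        exact lt_irrefl _ (Finset.mem_filter.mp (hsub h3)).2
    omega
  rcases Nat.le_total i i' with h1 | h1
  · exact key i i' hi hi' h1 h
  · exact (key i' i hi' hi h1 h.symm).symm

theorem card_div (m n i : ℕ) (hn : 0 < n) (hi : i < m) :
    ((range (m * n)).filter (fun R => R / n = i)).card = n := by
  have h1 : (range (m * n)).filter (fun R => R / n = i) = Ico (n * i) (n * i + n) := by
    ext R
    rw [Finset.mem_filter, Finset.mem_range, Finset.mem_Ico]
    constructor
    · rintro ⟨_, h2⟩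
      subst h2
      have h3 := Nat.mul_div_le R n
      have h4 := Nat.lt_div_mul_add (a := R) hn
      rw [Nat.mul_comm (R / n) n] at h4
      exact ⟨h3, h4⟩
    · rintro ⟨h2, h3⟩
      have h4 : n * (i + 1) ≤ n * m := Nat.mul_le_mul_left n hi
      rw [Nat.mul_succ, Nat.mul_comm n m] at h4
      refine ⟨by omega, ?_⟩
      rw [Nat.div_eq_iff hn]
      constructor
      · rw [Nat.mul_comm]; exact h2
      · rw [Nat.mul_comm]; omega
  rw [h1, Nat.card_Ico, Nat.add_sub_cancel_left]

/-- the number of indices with a label in the dilation -/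
theorem card_div_lab (m n : ℕ) (hn : 0 < n) (g : ℕ → ℕ) (a : ℕ) :
    ((range (m * n)).filter (fun R => g (R / n) = a)).card =
      n * ((range m).filter (fun i => g i = a)).card := by
  classical
  rw [Finset.card_eq_sum_card_fiberwise (f := fun R => R / n) (t := (range m).filter
    (fun i => g i = a))]
  · rw [Finset.sum_congr rfl (g := fun _ => n), Finset.sum_const, smul_eq_mul, mul_comm]
    intro i hi
    rw [Finset.mem_filter, Finset.mem_range] at hi
    refine Eq.trans ?_ (card_div m n i hn hi.1)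
    rw [Finset.filter_filter]
    congr 1
    apply Finset.filter_congr
    intro R _
    constructor
    · exact fun h => h.2
    · intro h
      exact ⟨by rw [h]; exact hi.2, h⟩
  · intro R hR
    rw [Finset.mem_coe, Finset.mem_filter, Finset.mem_range] at hR
    rw [Finset.mem_coe, Finset.mem_filter, Finset.mem_range]
    exact ⟨(Nat.div_lt_iff_lt_mul hn).mpr hR.1, hR.2⟩

theorem colLen_dilate (n : ℕ) (hn : 0 < n) (μ : YoungDiagram) (X : ℕ) :
    (dilate n μ).colLen X = n * μ.colLen (X / n) := by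
  have h : ∀ R, R < (dilate n μ).colLen X ↔ R < n * μ.colLen (X / n) := by
    intro R
    rw [← YoungDiagram.mem_iff_lt_colLen, mem_dilate n hn, YoungDiagram.mem_iff_lt_colLen,
      Nat.div_lt_iff_lt_mul hn, Nat.mul_comm]
  apply le_antisymm
  · by_contra hcon
    exact absurd ((h _).mp (not_le.mp hcon)) (lt_irrefl _)
  · by_contra hcon
    exact absurd ((h _).mpr (not_le.mp hcon)) (lt_irrefl _)

/-- the number of cells of the dilation over one cell -/
theorem fib_dilate (n : ℕ) (hn : 0 < n) (μ : YoungDiagram) (i x : ℕ) :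
    (univ.filter (fun e : (dilate n μ).cells => e.1.1 / n = i ∧ e.1.2 / n = x)).card =
      if x < μ.rowLen i then n * n else 0 := by
  classical
  split_ifs with hd
  · have h1 : (i, x) ∈ μ := YoungDiagram.mem_iff_lt_rowLen.mpr hd
    have h2 : (n * i, n * x) ∈ dilate n μ := by
      rw [mem_dilate n hn, Nat.mul_div_cancel_left _ hn, Nat.mul_div_cancel_left _ hn]
      exact h1
    have h3 := block_cardL (dilate n μ) (fun R => R / n) (fun R => R / n)
      (fun i i' _ _ h => by rw [rowLen_dilate n hn, rowLen_dilate n hn, h])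
      (fun i i' _ _ h => by rw [colLen_dilate n hn, colLen_dilate n hn, h]) (n * i, n * x)
      ((YoungDiagram.mem_cells _).mpr h2)
    simp only [Nat.mul_div_cancel_left _ hn] at h3
    rw [h3]
    have hi : i < μ.colLen 0 := YoungDiagram.mem_iff_lt_colLen.mp
      (μ.up_left_mem le_rfl (Nat.zero_le _) h1)
    have hx : x < μ.rowLen 0 := YoungDiagram.mem_iff_lt_rowLen.mp
      (μ.up_left_mem (Nat.zero_le _) le_rfl h1)
    unfold rowsL colsL
    rw [colLen_dilate n hn, rowLen_dilate n hn, Nat.zero_div, Nat.mul_comm n (μ.colLen 0),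
      Nat.mul_comm n (μ.rowLen 0), card_div _ n i hn hi, card_div _ n x hn hx]
  · rw [Finset.card_eq_zero, Finset.filter_eq_empty_iff]
    intro e _ he
    have h1 := (YoungDiagram.mem_cells _).mp e.2
    have h2 := (mem_dilate n hn μ e.1.1 e.1.2).mp h1
    rw [he.1, he.2] at h2
    exact hd (YoungDiagram.mem_iff_lt_rowLen.mp h2)

/-- the optimal values of the dilation -/
theorem gcut_dilate (n : ℕ) (hn : 0 < n) (μ : YoungDiagram) (P : ℕ → ℕ)
    (h1 : ∀ k, ∃ a b, a ≤ μ.colLen 0 ∧ b ≤ μ.rowLen 0 ∧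
      P k = k * (a + b) + n * ∑ i ∈ Ico a (μ.colLen 0), (μ.rowLen i - b))
    (h2 : ∀ k a b, a ≤ μ.colLen 0 → b ≤ μ.rowLen 0 →
      P k ≤ k * (a + b) + n * ∑ i ∈ Ico a (μ.colLen 0), (μ.rowLen i - b)) (k : ℕ) :
    gcut ((dilate n μ).colLen 0) (dilate n μ).rowLen k = n * P k := by
  classical
  have hct : ∀ a b, ct ((dilate n μ).colLen 0) (dilate n μ).rowLen 1 k (n * a) (n * b) =
      n * (k * (a + b) + n * ∑ i ∈ Ico a (μ.colLen 0), (μ.rowLen i - b)) := by
    intro a b
    unfold ct
    rw [← outside_card, far_dilate μ n hn a b]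
    ring
  apply le_antisymm
  · obtain ⟨a, b, _, _, hab⟩ := h1 k
    rw [hab, ← hct]
    exact gcut_le _ _ k _ _
  · obtain ⟨q, hq, hqe⟩ := gcut_grid (dilate n μ) k
    rw [hqe]
    obtain ⟨a', b'⟩ := q
    rw [grid, Finset.mem_product, Finset.mem_insert, Finset.mem_insert, Finset.mem_image,
      Finset.mem_image] at hq
    simp only at hq ⊢
    obtain ⟨a, ha, ha'⟩ : ∃ a, a ≤ μ.colLen 0 ∧ a' = n * a := by
      rcases hq.1 with h | ⟨X, _, h⟩
      · exact ⟨0, Nat.zero_le _, by rw [h, Nat.mul_zero]⟩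
      · exact ⟨μ.colLen (X / n), μ.colLen_anti 0 _ (Nat.zero_le _), by
          rw [← h, colLen_dilate n hn]⟩
    obtain ⟨b, hb, hb'⟩ : ∃ b, b ≤ μ.rowLen 0 ∧ b' = n * b := by
      rcases hq.2 with h | ⟨X, _, h⟩
      · exact ⟨0, Nat.zero_le _, by rw [h, Nat.mul_zero]⟩
      · exact ⟨μ.rowLen (X / n), μ.rowLen_anti 0 _ (Nat.zero_le _), by
          rw [← h, rowLen_dilate n hn]⟩
    rw [ha', hb', hct]
    exact Nat.mul_le_mul_left n (h2 k a b ha hb)

end Pool.MP_d56194_co
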