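import Mathlib
import Pool.Agent.Lib.MP_d56194_co.J.J5

set_option autoImplicit false

namespace Pool.MP_d56194_co

open Finset

/-- All dilations by a sufficiently large number, uniformly for the diagrams with at most `s`
distinct row lengths. -/
theorem uniform_dilation (s : ℕ) : ∃ n₀ : ℕ, ∀ n, n₀ ≤ n → ∀ μ : YoungDiagram,
    ((range (μ.colLen 0)).image μ.rowLen).card ≤ s → CDSColorable (dilate n μ) := by
  classical
  set T := 2 * ((s + 1) * (s + 1)) + 2 with hT
  obtain ⟨n₀, hn₀⟩ := group_table s s T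
  refine ⟨max n₀ 1, ?_⟩
  intro n hn μ hs
  have hnn : n₀ ≤ n := (le_max_left _ _).trans hn
  have hn0 : 0 < n := (le_max_right n₀ 1).trans hn
  set m := μ.colLen 0 with hmdef
  set N := μ.rowLen 0 with hNdef
  have hm : ∀ i, m ≤ i → μ.rowLen i = 0 := by
    intro i hi
    by_contra hne
    have h1 : (i, 0) ∈ μ := YoungDiagram.mem_iff_lt_rowLen.mpr (Nat.pos_of_ne_zero hne)
    have h2 := YoungDiagram.mem_iff_lt_colLen.mp h1
    omega
  have hanti : Antitone μ.rowLen := fun i j hij => μ.rowLen_anti i j hij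
  have hanti' : Antitone μ.colLen := fun i j hij => μ.colLen_anti i j hij
  have hN : ∀ i, μ.rowLen i ≤ N := fun i => hanti (Nat.zero_le i)
  obtain ⟨K0, hK0, hfine⟩ := fine_table m N μ.rowLen hanti hm hN
  obtain ⟨P, hP0, hP1, hP2, hfine2⟩ := hfine n hn0
  have hs' : ((range N).image μ.colLen).card ≤ s := (card_heights μ).trans hs
  set ν := dilate n μ with hν
  have hgc : ∀ k, gcut (ν.colLen 0) ν.rowLen k = n * P k := gcut_dilate n hn0 μ P hP1 hP2
  have hνrow : ∀ R, ν.rowLen R = n * μ.rowLen (R / n) := rowLen_dilate n hn0 μ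
  have hνcol : ∀ X, ν.colLen X = n * μ.colLen (X / n) := colLen_dilate n hn0 μ
  have hνm : ν.colLen 0 = m * n := by rw [hνcol, Nat.zero_div, Nat.mul_comm]
  have hνN : ν.rowLen 0 = N * n := by rw [hνrow, Nat.zero_div, Nat.mul_comm]
  have hνs : ((range (ν.colLen 0)).image ν.rowLen).card ≤ s := by
    refine le_trans ?_ hs
    have h1 : (range (ν.colLen 0)).image ν.rowLen ⊆
        ((range m).image μ.rowLen).image (fun l => n * l) := by
      intro l hl
      rw [Finset.mem_image] at hl
      obtain ⟨R, hR, rfl⟩ := hl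
      rw [Finset.mem_range, hνm] at hR
      rw [Finset.mem_image]
      refine ⟨μ.rowLen (R / n), Finset.mem_image_of_mem _ (Finset.mem_range.mpr
        ((Nat.div_lt_iff_lt_mul hn0).mpr hR)), (hνrow R).symm⟩
    exact (Finset.card_le_card h1).trans Finset.card_image_le
  obtain ⟨K, hKc, hKE, hKl⟩ := exists_levels ν (n * K0)
  obtain ⟨κ, hκ0, hκ, hκT, hκK⟩ := enum_levels (n * K0) T K hKE (by
    have h1 := card_grid ν s hνs
    omega)
  obtain ⟨Y, hY0, hY00, hYc, hYt, hYcell, hYr, hYx, hYr0, hYx0⟩ := hfine2 T κ hκ0 hκ hκT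
  set g1 := lab μ.rowLen m with hg1
  set g2 := lab μ.colLen N with hg2
  obtain ⟨Z, hZ1, hZ2, hZ3, hZ4⟩ := hn₀ n hnn m N μ.rowLen g1 g2
    (fun i i' h _ => lab_mono _ _ hanti i i' h) (fun i hi => lab_lt _ _ s hs i hi)
    (fun i i' h _ => lab_mono _ _ hanti' i i' h) (fun i hi => lab_lt _ _ s hs' i hi)
    P κ hκ Y hY0 hY00 hYc hYt hYcell hYr hYx hYr0 hYx0
  have hrn : ∀ v : ν.cells, v.1.1 / n < m := by
    intro v
    have h1 := (cell_lt ν v.1 v.2).1
    rw [hνm] at h1
    exact (Nat.div_lt_iff_lt_mul hn0).mpr h1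
  have hcn : ∀ v : ν.cells, v.1.2 / n < N := by
    intro v
    have h1 := (cell_lt ν v.1 v.2).2.1
    rw [hνN] at h1
    exact (Nat.div_lt_iff_lt_mul hn0).mpr h1
  set la : ℕ → ℕ := fun R => g1 (R / n) with hla
  set lb : ℕ → ℕ := fun X => g2 (X / n) with hlb
  have hlaeq : ∀ i i', i < ν.colLen 0 → i' < ν.colLen 0 → la i = la i' →
      ν.rowLen i = ν.rowLen i' := by
    intro i i' hi hi' h
    rw [hνm] at hi hi'
    rw [hνrow, hνrow, lab_eq μ.rowLen m hanti (i / n) (i' / n)
      ((Nat.div_lt_iff_lt_mul hn0).mpr hi) ((Nat.div_lt_iff_lt_mul hn0).mpr hi') h]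
  have hlbeq : ∀ j j', j < ν.rowLen 0 → j' < ν.rowLen 0 → lb j = lb j' →
      ν.colLen j = ν.colLen j' := by
    intro i i' hi hi' h
    rw [hνN] at hi hi'
    rw [hνcol, hνcol, lab_eq μ.colLen N hanti' (i / n) (i' / n)
      ((Nat.div_lt_iff_lt_mul hn0).mpr hi) ((Nat.div_lt_iff_lt_mul hn0).mpr hi') h]
  have hcardR : ∀ a, (rowsL ν la a).card = n * ((range m).filter (fun i => g1 i = a)).card := by
    intro a
    unfold rowsL
    rw [hνm]
    exact card_div_lab m n hn0 g1 a
  have hcardC : ∀ b, (colsL ν lb b).card = n * ((range N).filter (fun i => g2 i = b)).card := by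
    intro a
    unfold colsL
    rw [hνN]
    exact card_div_lab N n hn0 g2 a
  have hlas : ∀ v : ν.cells, la v.1.1 < s := fun v => lab_lt _ _ s hs _ (hrn v)
  have hlbs : ∀ v : ν.cells, lb v.1.2 < s := fun v => lab_lt _ _ s hs' _ (hcn v)
  have hblock : ∀ a : ℕ × ℕ, ∑ j ∈ range T, Z a.1 a.2 j =
      (univ.filter (fun e : ν.cells => ((la e.1.1, lb e.1.2) : ℕ × ℕ) = a)).card := by
    rintro ⟨a, b⟩
    rw [hZ1, Finset.card_eq_sum_card_fiberwise
      (f := fun e : ν.cells => ((e.1.1 / n, e.1.2 / n) : ℕ × ℕ)) (t := range m ×ˢ range N)]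
    · rw [Finset.sum_product, ← Nat.mul_assoc, Finset.mul_sum]
      apply Finset.sum_congr rfl
      intro i _
      rw [Finset.mul_sum]
      apply Finset.sum_congr rfl
      intro x _
      by_cases h1 : g1 i = a ∧ g2 x = b
      · have h2 : ((univ.filter (fun e : ν.cells => ((la e.1.1, lb e.1.2) : ℕ × ℕ) =
            (a, b))).filter (fun e : ν.cells => ((e.1.1 / n, e.1.2 / n) : ℕ × ℕ) = (i, x))) =
            univ.filter (fun e : ν.cells => e.1.1 / n = i ∧ e.1.2 / n = x) := by
          ext e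
          simp only [Finset.mem_filter, Finset.mem_univ, true_and, Prod.mk.injEq, hla, hlb]
          constructor
          · exact fun h => h.2
          · intro h
            refine ⟨⟨?_, ?_⟩, h⟩
            · rw [h.1]; exact h1.1
            · rw [h.2]; exact h1.2
        rw [h2, hν, fib_dilate n hn0 μ i x]
        by_cases h3 : x < μ.rowLen i
        · rw [if_pos ⟨h1.1, h1.2, h3⟩, if_pos h3, Nat.mul_one]
        · rw [if_neg (fun hc => h3 hc.2.2), if_neg h3, Nat.mul_zero]
      · rw [if_neg (fun hc => h1 ⟨hc.1, hc.2.1⟩), Nat.mul_zero]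
        symm
        rw [Finset.card_eq_zero, Finset.filter_eq_empty_iff]
        intro e he he'
        simp only [Finset.mem_filter, Finset.mem_univ, true_and, Prod.mk.injEq, hla,
          hlb] at he he'
        rw [he'.1, he'.2] at he
        exact h1 he
    · intro e _
      rw [Finset.mem_coe, Finset.mem_product]
      exact ⟨Finset.mem_range.mpr (hrn e), Finset.mem_range.mpr (hcn e)⟩
  obtain ⟨ψ0, hψ0, hψW⟩ := assign (fun e : ν.cells => ((la e.1.1, lb e.1.2) : ℕ × ℕ)) T
    (fun a j => Z a.1 a.2 j) hblock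
  -- counts
  have hcnt : ∀ (p : ν.cells → Prop) [DecidablePred p] (S : Finset (ℕ × ℕ)) (φ : ℕ), φ ≤ T →
      (∀ e, p e → ((la e.1.1, lb e.1.2) : ℕ × ℕ) ∈ S) →
      (∀ e : ν.cells, ((la e.1.1, lb e.1.2) : ℕ × ℕ) ∈ S → p e) →
      (univ.filter (fun e : ν.cells => p e ∧ ψ0 e < φ)).card =
        ∑ j ∈ range φ, ∑ a ∈ S, Z a.1 a.2 j := by
    intro p _ S φ hφ hp hp'
    rw [Finset.card_eq_sum_card_fiberwise (f := fun e : ν.cells => ψ0 e) (t := range φ)]
    · apply Finset.sum_congr rfl
      intro j hj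
      rw [Finset.mem_range] at hj
      rw [Finset.card_eq_sum_card_fiberwise
        (f := fun e : ν.cells => ((la e.1.1, lb e.1.2) : ℕ × ℕ)) (t := S)]
      · apply Finset.sum_congr rfl
        intro a ha
        rw [← hψW a j (by omega)]
        congr 1
        ext e
        simp only [Finset.mem_filter, Finset.mem_univ, true_and]
        constructor
        · rintro ⟨⟨⟨_, _⟩, h3⟩, h4⟩
          exact ⟨h4, h3⟩
        · rintro ⟨h3, h4⟩
          exact ⟨⟨⟨hp' e (by rw [h3]; exact ha), by omega⟩, h4⟩, h3⟩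
      · intro e he
        simp only [Finset.coe_filter, Set.mem_ofPred_eq, Finset.mem_filter, Finset.mem_univ,
          true_and] at he
        exact hp e he.1.1
    · intro e he
      simp only [Finset.coe_filter, Set.mem_ofPred_eq, Finset.mem_univ, true_and] at he
      exact Finset.mem_coe.mpr (Finset.mem_range.mpr he.2)
  have htele : ∀ (c φ : ℕ), φ ≤ T → ∑ j ∈ range φ, n * (c * (κ (j + 1) - κ j)) =
      n * c * κ φ := by
    intro c φ hφ
    induction φ with
    | zero => rw [hκ0]; simp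
    | succ φ ih =>
      rw [Finset.sum_range_succ, ih (by omega), ← Nat.mul_assoc, ← Nat.mul_add,
        Nat.add_sub_of_le (hκ φ)]
  have hrowc : ∀ a φ, φ ≤ T →
      (univ.filter (fun e : ν.cells => la e.1.1 = a ∧ ψ0 e < φ)).card ≤
        (rowsL ν la a).card * κ φ := by
    intro a φ hφ
    rw [hcnt (fun e => la e.1.1 = a) ((range s).image (fun b => (a, b))) φ hφ
      (by
        intro e he
        rw [Finset.mem_image]
        exact ⟨lb e.1.2, Finset.mem_range.mpr (hlbs e), by rw [he]⟩)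
      (by
        intro e he
        rw [Finset.mem_image] at he
        obtain ⟨x, _, hx⟩ := he
        rw [Prod.mk.injEq] at hx
        exact hx.1.symm), hcardR, ← htele _ φ hφ]
    apply Finset.sum_le_sum
    intro j hj
    rw [Finset.mem_range] at hj
    rw [Finset.sum_image (by
      intro x _ y _ h
      exact (Prod.mk.injEq _ _ _ _ ▸ h).2)]
    exact hZ2 a j (by omega)
  have hcolc : ∀ b φ, φ ≤ T →
      (univ.filter (fun e : ν.cells => lb e.1.2 = b ∧ ψ0 e < φ)).card ≤
        (colsL ν lb b).card * κ φ := by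
    intro b φ hφ
    rw [hcnt (fun e => lb e.1.2 = b) ((range s).image (fun a => (a, b))) φ hφ
      (by
        intro e he
        rw [Finset.mem_image]
        exact ⟨la e.1.1, Finset.mem_range.mpr (hlas e), by rw [he]⟩)
      (by
        intro e he
        rw [Finset.mem_image] at he
        obtain ⟨x, _, hx⟩ := he
        rw [Prod.mk.injEq] at hx
        exact hx.2.symm), hcardC, ← htele _ φ hφ]
    apply Finset.sum_le_sum
    intro j hj
    rw [Finset.mem_range] at hj
    rw [Finset.sum_image (by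
      intro x _ y _ h
      exact (Prod.mk.injEq _ _ _ _ ▸ h).1)]
    exact hZ3 b j (by omega)
  have htotc : ∀ φ, φ ≤ T →
      (univ.filter (fun e : ν.cells => ψ0 e < φ)).card = n * P (κ φ) := by
    intro φ hφ
    have h1 := hcnt (fun _ => True) (range s ×ˢ range s) φ hφ
      (by
        intro e _
        rw [Finset.mem_product]
        exact ⟨Finset.mem_range.mpr (hlas e), Finset.mem_range.mpr (hlbs e)⟩)
      (fun _ _ => trivial)
    simp only [true_and] at h1
    rw [h1]
    have h2 : ∀ j ∈ range φ, ∑ a ∈ range s ×ˢ range s, Z a.1 a.2 j =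
        ∑ a ∈ range s, ∑ b ∈ range s, Z a b j := by
      intro j _
      rw [Finset.sum_product]
    rw [Finset.sum_congr rfl h2]
    clear h1 h2
    induction φ with
    | zero => rw [hκ0, hP0]; simp
    | succ φ ih =>
      rw [Finset.sum_range_succ, ih (by omega), Nat.add_comm]
      exact hZ4 φ (by omega)
  obtain ⟨ψ, hψr, hψc, hψt⟩ := detach_lab ν la lb hlaeq hlbeq ψ0
  have hψΦ : ∀ v, ψ v < T := by
    intro v
    have h1 := hψt T
    rw [Finset.filter_true_of_mem (fun e _ => hψ0 e)] at h1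
    have h2 := Finset.eq_of_subset_of_card_le (Finset.filter_subset (fun v : ν.cells => ψ v < T)
      univ) (by rw [h1])
    have h3 : v ∈ univ.filter (fun v : ν.cells => ψ v < T) := by
      rw [h2]; exact Finset.mem_univ v
    exact (Finset.mem_filter.mp h3).2
  have harith : ∀ x c K : ℕ, 0 < c → x * c ≤ c * K + (c - 1) → x ≤ K := by
    intro x c K hc h
    by_contra hcon
    have h1 : (K + 1) * c ≤ x * c := Nat.mul_le_mul_right c (by omega)
    rw [Nat.add_mul, Nat.one_mul, Nat.mul_comm K c] at h1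
    omega
  obtain ⟨c, c1, c2, c3⟩ := phases_col ν T κ (gcut (ν.colLen 0) ν.rowLen) hκ0 hκ ψ hψΦ
    (by
      intro R φ hφ
      by_cases hR : R < ν.colLen 0
      · have hpos : 0 < (rowsL ν la (la R)).card :=
          Finset.card_pos.mpr ⟨R, (mem_rowsL ν la _ _).mpr ⟨hR, rfl⟩⟩
        apply harith _ _ _ hpos
        exact (hψr R φ hR).trans (Nat.add_le_add_right (hrowc (la R) φ hφ) _)
      · rw [Finset.filter_eq_empty_iff.mpr, Finset.card_empty]
        · exact Nat.zero_le _
        · intro e _ he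
          apply hR
          rw [← he.1]
          exact (cell_lt ν e.1 e.2).1)
    (by
      intro X φ hφ
      by_cases hX : X < ν.rowLen 0
      · have hpos : 0 < (colsL ν lb (lb X)).card :=
          Finset.card_pos.mpr ⟨X, (mem_colsL ν lb _ _).mpr ⟨hX, rfl⟩⟩
        apply harith _ _ _ hpos
        exact (hψc X φ hX).trans (Nat.add_le_add_right (hcolc (lb X) φ hφ) _)
      · rw [Finset.filter_eq_empty_iff.mpr, Finset.card_empty]
        · exact Nat.zero_le _
        · intro e _ he
          apply hX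
          rw [← he.1]
          exact (cell_lt ν e.1 e.2).2.1)
    (by
      intro φ hφ
      rw [hψt φ, htotc φ hφ, hgc])
    (by
      intro k hk
      rw [hκT] at hk
      obtain ⟨k1, hk1, k2, hk2, σ, d, e1, e2, e3, e4, e5⟩ := hKl k hk.le
      obtain ⟨φ1, f1, rfl⟩ := hκK k1 hk1
      obtain ⟨φ2, f2, rfl⟩ := hκK k2 hk2
      exact ⟨φ1, φ2, σ, d, f1, f2, e1, e2, e3, e4, e5⟩)
  apply cds_of_proper ν (fun R X => c (R, X))
  · intro R X X' h1 h2 h3
    by_contra hne
    exact c1 (R, X) ((YoungDiagram.mem_cells _).mpr h1) (R, X')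
      ((YoungDiagram.mem_cells _).mpr h2) (fun h => hne (Prod.mk.injEq _ _ _ _ ▸ h).2)
      (Or.inl rfl) h3
  · intro R R' X h1 h2 h3
    by_contra hne
    exact c1 (R, X) ((YoungDiagram.mem_cells _).mpr h1) (R', X)
      ((YoungDiagram.mem_cells _).mpr h2) (fun h => hne (Prod.mk.injEq _ _ _ _ ▸ h).1)
      (Or.inr rfl) h3
  · intro k _
    by_cases hk : κ T ≤ k
    · left
      intro v hv
      exact lt_of_lt_of_le (c2 v hv) hk
    · right
      obtain ⟨a, b, hab⟩ := gcut_attained (ν.colLen 0) ν.rowLen k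
      refine ⟨a, b, ?_⟩
      have h1 := c3 k (by omega)
      rw [hab] at h1
      unfold ct at h1
      rw [outside_card, ← Nat.mul_add]
      exact h1

end Pool.MP_d56194_co
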